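import Pool.Agent.Helper394.Ops

open Finset

namespace Pool.Agent.Helper394

noncomputable section

section prod

variable {ι : Type*} [Fintype ι] [DecidableEq ι]
variable {H : ι → Type*} [∀ i, AddCommGroup (H i)]

theorem U_prod (A : ∀ i, Finset (H i)) (F : ∀ i, H i → ℝ) (x : ∀ i, H i) :
    U (Fintype.piFinset A) (fun y => ∏ i, F i (y i)) x = ∏ i, U (A i) (F i) (x i) := by
  simp only [U_apply, Pi.add_apply]
  rw [Finset.prod_div_distrib, Fintype.card_piFinset, Finset.prod_univ_sum]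
  push_cast
  rfl

theorem U_pow_prod (A : ∀ i, Finset (H i)) (F : ∀ i, H i → ℝ) (n : ℕ) :
    (U (Fintype.piFinset A) ^ n) (fun y => ∏ i, F i (y i)) =
      fun x => ∏ i, (U (A i) ^ n) (F i) (x i) := by
  induction n with
  | zero => simp
  | succ n ih =>
    ext x
    rw [U_pow_succ_apply, ih, U_prod]
    refine Finset.prod_congr rfl fun i _ => ?_
    rw [U_pow_succ_apply]

theorem addChar_map_sum {X κ : Type*} [AddCommGroup X] (χ : AddChar X ℂ) (s : Finset κ)
    (f : κ → X) : χ (∑ i ∈ s, f i) = ∏ i ∈ s, χ (f i) := by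
  classical
  induction s using Finset.induction_on with
  | empty => simp
  | insert a s ha ih => rw [Finset.sum_insert ha, Finset.prod_insert ha,
      AddChar.map_add_eq_mul, ih]

theorem char_prod (A : ∀ i, Finset (H i)) (χ : AddChar (∀ i, H i) ℂ) :
    ∑ s ∈ Fintype.piFinset A, χ s = ∏ i, ∑ g ∈ A i, χ (Pi.single i g) := by
  rw [Finset.prod_univ_sum]
  refine Finset.sum_congr rfl fun s _ => ?_
  conv_lhs => rw [← Finset.univ_sum_single s]
  rw [addChar_map_sum]

theorem norm_char_le {X : Type*} [AddCommGroup X] [Finite X] (χ : AddChar X ℂ) (x : X) :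
    ‖χ x‖ = 1 := AddChar.norm_apply χ x

theorem norm_char_sum_le {X : Type*} [AddCommGroup X] [Finite X] (χ : AddChar X ℂ)
    (A : Finset X) : ‖∑ s ∈ A, χ s‖ ≤ A.card := by
  refine (norm_sum_le _ _).trans ?_
  simp [norm_char_le]

theorem char_prod_bound [∀ i, Finite (H i)] (A : ∀ i, Finset (H i)) (c : ℝ)
    (hA : ∀ i, ∀ ψ : AddChar (H i) ℂ, ψ ≠ 1 → ‖∑ g ∈ A i, ψ g‖ ≤ c * (A i).card)
    (χ : AddChar (∀ i, H i) ℂ) (hχ : χ ≠ 1) :
    ‖∑ s ∈ Fintype.piFinset A, χ s‖ ≤ c * (Fintype.piFinset A).card := by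
  rw [char_prod, norm_prod, Fintype.card_piFinset]
  push_cast
  let ψ : ∀ i, AddChar (H i) ℂ := fun i => χ.compAddMonoidHom (AddMonoidHom.single H i)
  have hψ : ∀ i g, ψ i g = χ (Pi.single i g) := fun i g => rfl
  have hex : ∃ i, ψ i ≠ 1 := by
    by_contra hcon
    push Not at hcon
    apply hχ
    ext s
    rw [AddChar.one_apply, ← Finset.univ_sum_single s, addChar_map_sum]
    refine Finset.prod_eq_one fun i _ => ?_
    rw [← hψ, hcon i, AddChar.one_apply]
  obtain ⟨i, hi⟩ := hex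
  rw [← Finset.mul_prod_erase univ _ (Finset.mem_univ i),
    ← Finset.mul_prod_erase univ (fun i => ((A i).card : ℝ)) (Finset.mem_univ i), ← mul_assoc]
  refine mul_le_mul (hA i (ψ i) hi) ?_ (Finset.prod_nonneg fun _ _ => norm_nonneg _) ?_
  · refine Finset.prod_le_prod (fun _ _ => norm_nonneg _) fun j _ => ?_
    exact norm_char_sum_le (ψ j) (A j)
  · exact (norm_nonneg _).trans (hA i (ψ i) hi)

end prod

section cross

variable {X Y : Type*} [AddCommGroup X] [AddCommGroup Y] [Fintype X] [Fintype Y]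
  [DecidableEq X] [DecidableEq Y]

/-- the punctured cross in a product of two groups -/
def cross (X Y : Type*) [AddCommGroup X] [AddCommGroup Y] [Fintype X] [Fintype Y]
  [DecidableEq X] [DecidableEq Y] : Finset (X × Y) :=
  ({0} ×ˢ (univ.erase 0)) ∪ ((univ.erase 0) ×ˢ {0})

theorem mem_cross (x : X × Y) :
    x ∈ cross X Y ↔ (x.1 = 0 ∧ x.2 ≠ 0) ∨ (x.1 ≠ 0 ∧ x.2 = 0) := by
  rcases x with ⟨x, y⟩
  rw [cross, Finset.mem_union, Finset.mem_product, Finset.mem_product]
  simp

theorem zero_notMem_cross : (0 : X × Y) ∉ cross X Y := by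
  rw [mem_cross]
  simp

theorem neg_mem_cross (x : X × Y) (hx : x ∈ cross X Y) : -x ∈ cross X Y := by
  rw [mem_cross] at hx ⊢
  simpa using hx

theorem cross_disj : Disjoint (({0} : Finset X) ×ˢ ((univ : Finset Y).erase 0))
    (((univ : Finset X).erase 0) ×ˢ ({0} : Finset Y)) := by
  rw [Finset.disjoint_left]
  rintro ⟨x, y⟩ h1 h2
  rw [Finset.mem_product, Finset.mem_singleton] at h1
  rw [Finset.mem_product, Finset.mem_erase] at h2
  exact h2.1.1 h1.1

theorem sum_cross {M : Type*} [AddCommGroup M] (f : X × Y → M) :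
    ∑ s ∈ cross X Y, f s = (∑ y, f (0, y)) + (∑ x, f (x, 0)) - f (0, 0) - f (0, 0) := by
  rw [cross, Finset.sum_union cross_disj, Finset.sum_product, Finset.sum_product]
  simp only [Finset.sum_singleton]
  rw [Finset.sum_erase_eq_sub (Finset.mem_univ _), Finset.sum_erase_eq_sub (Finset.mem_univ _)]
  abel

theorem card_cross : ((cross X Y).card : ℝ) = Fintype.card X + Fintype.card Y - 2 := by
  have h := sum_cross (X := X) (Y := Y) (fun _ => (1 : ℝ))
  simp at h
  rw [h]; ring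

theorem cross_char (hXY : Fintype.card X ≤ 2 * Fintype.card Y)
    (hYX : Fintype.card Y ≤ 2 * Fintype.card X) (h3 : 3 ≤ Fintype.card X)
    (ψ : AddChar (X × Y) ℂ) (hψ : ψ ≠ 1) :
    ‖∑ g ∈ cross X Y, ψ g‖ ≤ (2 / 3 : ℝ) * (cross X Y).card := by
  have hX1 : (3 : ℝ) ≤ Fintype.card X := by exact_mod_cast h3
  have hXY' : (Fintype.card X : ℝ) ≤ 2 * Fintype.card Y := by exact_mod_cast hXY
  have hYX' : (Fintype.card Y : ℝ) ≤ 2 * Fintype.card X := by exact_mod_cast hYX
  have hY1' : 2 ≤ Fintype.card Y := by omega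
  have hY1 : (2 : ℝ) ≤ Fintype.card Y := by exact_mod_cast hY1'
  rw [card_cross, sum_cross]
  let ψ1 : AddChar X ℂ := ψ.compAddMonoidHom (AddMonoidHom.inl X Y)
  let ψ2 : AddChar Y ℂ := ψ.compAddMonoidHom (AddMonoidHom.inr X Y)
  have h1 : ∀ x, ψ (x, 0) = ψ1 x := fun x => rfl
  have h2 : ∀ y, ψ (0, y) = ψ2 y := fun y => rfl
  have h0 : ψ (0, 0) = 1 := ψ.map_zero_eq_one
  have hne : ¬ (ψ1 = 1 ∧ ψ2 = 1) := by
    rintro ⟨e1, e2⟩
    apply hψ
    ext ⟨x, y⟩
    have : ((x, y) : X × Y) = (x, 0) + (0, y) := by simp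
    rw [this, AddChar.map_add_eq_mul, h1, h2, e1, e2]
    simp
  rw [h0]
  simp only [h1, h2]
  rw [AddChar.sum_eq_ite, AddChar.sum_eq_ite]
  by_cases e1 : ψ1 = 0
  · by_cases e2 : ψ2 = 0
    · exact absurd ⟨e1, e2⟩ hne
    · rw [if_pos e1, if_neg e2, zero_add]
      rw [show ((Fintype.card X : ℂ) - 1 - 1) = (((Fintype.card X : ℝ) - 2 : ℝ) : ℂ) by
        push_cast; ring]
      rw [Complex.norm_real, Real.norm_eq_abs, abs_of_nonneg (by linarith)]
      linarith
  · by_cases e2 : ψ2 = 0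
    · rw [if_neg e1, if_pos e2, add_zero]
      rw [show ((Fintype.card Y : ℂ) - 1 - 1) = (((Fintype.card Y : ℝ) - 2 : ℝ) : ℂ) by
        push_cast; ring]
      rw [Complex.norm_real, Real.norm_eq_abs, abs_of_nonneg (by linarith)]
      linarith
    · rw [if_neg e1, if_neg e2]
      rw [show ((0 : ℂ) + 0 - 1 - 1) = ((-2 : ℝ) : ℂ) by push_cast; ring]
      rw [Complex.norm_real, Real.norm_eq_abs]
      norm_num
      linarith

/-- the indicator of `x = 0` stays large -/
theorem cross_U_pow (hXY : Fintype.card X < 2 * Fintype.card Y) (h3 : 3 ≤ Fintype.card X)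
    (n : ℕ) (y : Y) :
    ((1 : ℝ) / 3) ^ n ≤
      (U (cross X Y) ^ n) (fun x => if x.1 = 0 then (1 : ℝ) else 0) (0, y) := by
  have hX1 : (3 : ℝ) ≤ Fintype.card X := by exact_mod_cast h3
  have hY1' : 2 ≤ Fintype.card Y := by omega
  have hY1 : (2 : ℝ) ≤ Fintype.card Y := by exact_mod_cast hY1'
  have hXY' : (Fintype.card X : ℝ) + 1 ≤ 2 * Fintype.card Y := by exact_mod_cast hXY
  induction n generalizing y with
  | zero => simp
  | succ n ih =>
    rw [U_pow_succ_apply, U_apply]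
    have hc : (0 : ℝ) < (cross X Y).card := by rw [card_cross]; linarith
    rw [le_div_iff₀ hc]
    set g := (U (cross X Y) ^ n) (fun x => if x.1 = 0 then (1 : ℝ) else 0) with hg
    have hg0 : ∀ x, 0 ≤ g x := U_pow_nonneg _ _ (fun x => by split_ifs <;> norm_num)
    have h1 : ∑ s ∈ ({0} : Finset X) ×ˢ ((univ : Finset Y).erase 0), g ((0, y) + s) ≤
        ∑ s ∈ cross X Y, g ((0, y) + s) := by
      apply Finset.sum_le_sum_of_subset_of_nonneg
      · rw [cross]; exact Finset.subset_union_left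
      · intro s _ _; exact hg0 _
    refine le_trans ?_ h1
    rw [Finset.sum_product]
    simp only [Finset.sum_singleton, Prod.mk_add_mk, add_zero]
    calc ((1 : ℝ) / 3) ^ (n + 1) * (cross X Y).card
        ≤ ((1 : ℝ) / 3) ^ n * ((Fintype.card Y : ℝ) - 1) := by
          rw [card_cross, pow_succ]
          have : (0 : ℝ) < (1 / 3) ^ n := by positivity
          nlinarith
      _ = ∑ _y' ∈ (univ : Finset Y).erase 0, ((1 : ℝ) / 3) ^ n := by
          rw [Finset.sum_const, Finset.card_erase_of_mem (Finset.mem_univ _), Finset.card_univ,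
            nsmul_eq_mul]
          push_cast [Nat.cast_sub (show 1 ≤ Fintype.card Y by omega)]
          ring
      _ ≤ _ := Finset.sum_le_sum fun y' _ => ih _

end cross

section base

variable {ι : Type*} [Fintype ι] [DecidableEq ι]
variable {X Y : ι → Type*} [∀ i, AddCommGroup (X i)] [∀ i, AddCommGroup (Y i)]
  [∀ i, Fintype (X i)] [∀ i, Fintype (Y i)] [∀ i, DecidableEq (X i)] [∀ i, DecidableEq (Y i)]

/-- step set of the base walk -/
def baseA (X Y : ι → Type*) [∀ i, AddCommGroup (X i)] [∀ i, AddCommGroup (Y i)]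
  [∀ i, Fintype (X i)] [∀ i, Fintype (Y i)] [∀ i, DecidableEq (X i)] [∀ i, DecidableEq (Y i)] :
    Finset (∀ i, X i × Y i) :=
  Fintype.piFinset fun i => cross (X i) (Y i)

/-- the test set: some first coordinate vanishes -/
def baseE (X Y : ι → Type*) [∀ i, AddCommGroup (X i)] [∀ i, AddCommGroup (Y i)]
  [∀ i, Fintype (X i)] [∀ i, Fintype (Y i)] [∀ i, DecidableEq (X i)] [∀ i, DecidableEq (Y i)] :
    Finset (∀ i, X i × Y i) :=
  univ.filter fun l => ∃ i, (l i).1 = 0

theorem ind_baseE (l : ∀ i, X i × Y i) :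
    (if l ∈ baseE X Y then (1 : ℝ) else 0) = 1 - ∏ i, (1 - if (l i).1 = 0 then (1 : ℝ) else 0) := by
  by_cases h : ∃ i, (l i).1 = 0
  · have h' : l ∈ baseE X Y := by simp [baseE, h]
    rw [if_pos h']
    obtain ⟨i, hi⟩ := h
    rw [Finset.prod_eq_zero (Finset.mem_univ i) (by simp [hi])]
    simp
  · have h' : l ∉ baseE X Y := by simp only [baseE, mem_filter, mem_univ, true_and]; exact h
    rw [if_neg h']
    push Not at h
    rw [Finset.prod_eq_one (fun i _ => by simp [h i])]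
    simp

theorem bern_inv (x : ℝ) (hx0 : 0 ≤ x) (hx1 : x ≤ 1) (n : ℕ) :
    (1 - x) ^ n ≤ 1 / (1 + n * x) := by
  have h1 : (1 - x) * (1 + x) ≤ 1 := by nlinarith
  have h2 : 1 + (n : ℝ) * x ≤ (1 + x) ^ n := one_add_mul_le_pow (by linarith) n
  have h3 : (1 - x) ^ n * (1 + x) ^ n ≤ 1 := by
    rw [← mul_pow]
    exact pow_le_one₀ (by nlinarith) h1
  rw [le_div_iff₀ (by positivity)]
  calc (1 - x) ^ n * (1 + n * x) ≤ (1 - x) ^ n * (1 + x) ^ n := by
        apply mul_le_mul_of_nonneg_left h2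
        apply pow_nonneg; linarith
    _ ≤ 1 := h3

theorem base_lower [Nonempty ι] (hXY : ∀ i, Fintype.card (X i) < 2 * Fintype.card (Y i))
    (h3 : ∀ i, 3 ≤ Fintype.card (X i)) (n T : ℕ) (hn : n ≤ T)
    (hι : 7 * 3 ^ T ≤ Fintype.card ι) :
    (7 / 8 : ℝ) ≤ (U (baseA X Y) ^ n) (fun l => if l ∈ baseE X Y then (1 : ℝ) else 0) 0 := by
  have hne : ∀ i, (cross (X i) (Y i)).Nonempty := by
    intro i
    rw [← Finset.card_pos]
    have h1 : (3 : ℝ) ≤ Fintype.card (X i) := by exact_mod_cast h3 i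
    have h2 : (Fintype.card (X i) : ℝ) + 1 ≤ 2 * Fintype.card (Y i) := by exact_mod_cast hXY i
    have : (0 : ℝ) < (cross (X i) (Y i)).card := by
      rw [card_cross]
      linarith
    exact_mod_cast this
  have hAne : (baseA X Y).Nonempty := Fintype.piFinset_nonempty.mpr hne
  have e1 : (fun l => if l ∈ baseE X Y then (1 : ℝ) else 0) =
      (fun _ => (1 : ℝ)) - (fun l => ∏ i, (1 - if (l i).1 = 0 then (1 : ℝ) else 0)) := by
    ext l
    rw [ind_baseE]
    rfl
  rw [e1, map_sub, U_pow_const _ hAne]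
  have e2 := U_pow_prod (fun i => cross (X i) (Y i))
    (fun i (g : X i × Y i) => (1 - if g.1 = 0 then (1 : ℝ) else 0)) n
  rw [Pi.sub_apply]
  rw [baseA, e2]
  have e3 : ∀ i, (U (cross (X i) (Y i)) ^ n)
      (fun (g : X i × Y i) => (1 - if g.1 = 0 then (1 : ℝ) else 0)) ((0 : ∀ i, X i × Y i) i) ≤
      1 - (1 / 3 : ℝ) ^ T := by
    intro i
    have e4 : (fun (g : X i × Y i) => (1 - if g.1 = 0 then (1 : ℝ) else 0)) =
      (fun _ => (1 : ℝ)) - (fun g => if g.1 = 0 then (1 : ℝ) else 0) := by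
      ext l; rfl
    rw [e4, map_sub, U_pow_const _ (hne i), Pi.sub_apply]
    have := cross_U_pow (X := X i) (Y := Y i) (hXY i) (h3 i) n 0
    have h5 : (1 / 3 : ℝ) ^ T ≤ (1 / 3 : ℝ) ^ n :=
      pow_le_pow_of_le_one (by norm_num) (by norm_num) hn
    have h6 : ((0 : ∀ i, X i × Y i) i) = (0, 0) := rfl
    rw [h6]
    linarith
  have e5 : ∏ i, (U (cross (X i) (Y i)) ^ n)
      (fun (g : X i × Y i) => (1 - if g.1 = 0 then (1 : ℝ) else 0)) ((0 : ∀ i, X i × Y i) i) ≤
      (1 - (1 / 3 : ℝ) ^ T) ^ (Fintype.card ι) := by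
    calc _ ≤ ∏ _i : ι, (1 - (1 / 3 : ℝ) ^ T) := by
          refine Finset.prod_le_prod (fun i _ => ?_) (fun i _ => e3 i)
          apply U_pow_nonneg
          intro x
          split_ifs <;> norm_num
      _ = _ := by simp
  have h7 : (1 / 3 : ℝ) ^ T ≤ 1 := pow_le_one₀ (by norm_num) (by norm_num)
  have h8 := bern_inv ((1 / 3 : ℝ) ^ T) (by positivity) h7 (Fintype.card ι)
  have h9 : (7 : ℝ) ≤ (Fintype.card ι) * (1 / 3 : ℝ) ^ T := by
    have : (7 * 3 ^ T : ℝ) ≤ Fintype.card ι := by exact_mod_cast hι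
    calc (7 : ℝ) = (7 * 3 ^ T) * (1 / 3) ^ T := by
          rw [mul_assoc, ← mul_pow]; norm_num
      _ ≤ _ := by gcongr
  have h10 : 1 / (1 + (Fintype.card ι) * (1 / 3 : ℝ) ^ T) ≤ 1 / 8 := by
    apply one_div_le_one_div_of_le (by norm_num)
    linarith
  linarith

theorem base_card (hX : ∀ i, 8 * Fintype.card ι ≤ Fintype.card (X i)) [Nonempty ι] :
    8 * ((baseE X Y).card : ℝ) ≤ Fintype.card (∀ i, X i × Y i) := by
  have h1 : ((baseE X Y).card : ℝ) = ∑ l, (if l ∈ baseE X Y then (1 : ℝ) else 0) := by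
    simp
  rw [h1]
  simp only [ind_baseE]
  rw [Finset.sum_sub_distrib]
  have h2 : ∑ l : (∀ i, X i × Y i), ∏ i, (1 - if (l i).1 = 0 then (1 : ℝ) else 0) =
      ∏ i, ∑ g : X i × Y i, (1 - if g.1 = 0 then (1 : ℝ) else 0) := by
    rw [Finset.prod_univ_sum, Fintype.piFinset_univ]
  rw [h2]
  have h3 : ∀ i, ∑ g : X i × Y i, (1 - if g.1 = 0 then (1 : ℝ) else 0) =
      (1 - 1 / (Fintype.card (X i) : ℝ)) * (Fintype.card (X i × Y i) : ℝ) := by
    intro i
    rw [Finset.sum_sub_distrib]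
    have e0 : ∑ g : X i × Y i, (if g.1 = 0 then (1 : ℝ) else 0) = Fintype.card (Y i) := by
      rw [Fintype.sum_prod_type, Finset.sum_comm]
      simp
    rw [e0]
    simp only [Finset.sum_const, Finset.card_univ, nsmul_eq_mul, mul_one, Fintype.card_prod]
    have : (0 : ℝ) < Fintype.card (X i) := by exact_mod_cast Fintype.card_pos
    push_cast
    field_simp
  simp only [h3]
  rw [Finset.prod_mul_distrib]
  have h4 : (∏ i, (Fintype.card (X i × Y i) : ℝ)) = Fintype.card (∀ i, X i × Y i) := by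
    rw [Fintype.card_pi]; push_cast; rfl
  rw [h4]
  have hr : (0 : ℝ) < Fintype.card ι := by exact_mod_cast Fintype.card_pos
  have h5 : (7 / 8 : ℝ) ≤ ∏ i, (1 - 1 / (Fintype.card (X i) : ℝ)) := by
    calc (7 / 8 : ℝ) = 1 + (Fintype.card ι) * (-(1 / (8 * (Fintype.card ι : ℝ)))) := by
          field_simp; norm_num
      _ ≤ (1 + (-(1 / (8 * (Fintype.card ι : ℝ))))) ^ (Fintype.card ι) := by
          apply one_add_mul_le_pow
          have : 1 / (8 * (Fintype.card ι : ℝ)) ≤ 1 := by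
            rw [div_le_one (by positivity)]
            have : (1 : ℝ) ≤ Fintype.card ι := by exact_mod_cast Fintype.card_pos
            linarith
          linarith
      _ = ∏ _i : ι, (1 - (1 / (8 * (Fintype.card ι : ℝ)))) := by
          simp [sub_eq_add_neg]
      _ ≤ _ := by
          refine Finset.prod_le_prod (fun i _ => ?_) (fun i _ => ?_)
          · have : 1 / (8 * (Fintype.card ι : ℝ)) ≤ 1 := by
              rw [div_le_one (by positivity)]
              have : (1 : ℝ) ≤ Fintype.card ι := by exact_mod_cast Fintype.card_pos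
              linarith
            linarith
          · have h6 : (8 * (Fintype.card ι : ℝ)) ≤ Fintype.card (X i) := by exact_mod_cast hX i
            have := one_div_le_one_div_of_le (by positivity) h6
            linarith
  have h6 : (0 : ℝ) ≤ Fintype.card (∀ i, X i × Y i) := by positivity
  have h7 : ∑ _l : (∀ i, X i × Y i), (1 : ℝ) = Fintype.card (∀ i, X i × Y i) := by simp
  rw [h7]
  nlinarith

end base

end

end Pool.Agent.Helper394
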