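import Pool.Agent.Helper394.Wrap

open Finset Filter Topology

namespace Pool.Agent.Helper394

noncomputable section

variable {G : Type} [AddCommGroup G] [Fintype G] [DecidableEq G]

/-- the Cayley graph of a symmetric set without zero -/
def cay (S : Finset G) (h0 : (0 : G) ∉ S) (hn : ∀ s ∈ S, -s ∈ S) : SimpleGraph G where
  Adj x y := y - x ∈ S
  symm := ⟨fun x y h => by
    have := hn _ h
    rwa [neg_sub] at this⟩
  loopless := ⟨fun x h => h0 (by simpa using h)⟩

theorem cay_adj (S : Finset G) (h0 : (0 : G) ∉ S) (hn : ∀ s ∈ S, -s ∈ S) (x y : G) :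
    (cay S h0 hn).Adj x y ↔ y - x ∈ S := Iff.rfl

instance (S : Finset G) (h0 : (0 : G) ∉ S) (hn : ∀ s ∈ S, -s ∈ S) :
    DecidableRel (cay S h0 hn).Adj := fun x y =>
  inferInstanceAs (Decidable (y - x ∈ S))

theorem cay_degree (S : Finset G) (h0 : (0 : G) ∉ S) (hn : ∀ s ∈ S, -s ∈ S) (x : G) :
    (cay S h0 hn).degree x = S.card := by
  rw [← SimpleGraph.card_neighborFinset_eq_degree]
  refine Finset.card_bij' (fun y _ => y - x) (fun s _ => x + s) ?_ ?_ ?_ ?_
  · intro y hy
    rw [SimpleGraph.mem_neighborFinset, cay_adj] at hy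
    exact hy
  · intro s hs
    rw [SimpleGraph.mem_neighborFinset, cay_adj]
    simpa using hs
  · intro y _; simp
  · intro s _; simp

theorem cay_transitive (S : Finset G) (h0 : (0 : G) ∉ S) (hn : ∀ s ∈ S, -s ∈ S) (x y : G) :
    ∃ φ : cay S h0 hn ≃g cay S h0 hn, φ x = y := by
  refine ⟨⟨Equiv.addRight (y - x), ?_⟩, ?_⟩
  · intro a b
    simp [cay_adj]
  · simp

theorem cay_connected {S : Finset G} {T : ℕ} (h : Bad S T) :
    (cay S h.zero h.neg).Connected := by
  rw [SimpleGraph.connected_iff_exists_forall_reachable]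
  refine ⟨0, fun z => ?_⟩
  refine h.closed {y | (cay S h.zero h.neg).Reachable 0 y} 0 (SimpleGraph.Reachable.refl _) ?_ z
  intro y hy s hs
  have h1 : (cay S h.zero h.neg).Adj y (y + s) := by
    rw [cay_adj]; simpa using hs
  exact SimpleGraph.Reachable.trans hy h1.reachable

end

end Pool.Agent.Helper394
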