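import Pool.Agent.Helper394.Wrap

open Finset Filter Topology

namespace Pool.Agent.Helper394

noncomputable section

section

variable {G : Type} [AddCommGroup G] [Fintype G] [DecidableEq G]

/-- step law of the lazy walk with steps uniform in `S` -/
def mu (S : Finset G) : G → ℝ :=
  fun x => (if x = 0 then 1 / 2 else 0) + (if x ∈ S then 1 / (2 * (S.card : ℝ)) else 0)

/-- its transition matrix -/
def Pmu (S : Finset G) : Matrix G G ℝ := fun x y => mu S (y - x)

theorem Pmu_mulVec (S : Finset G) (f : G → ℝ) : (Pmu S).mulVec f = V S f := by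
  ext x
  rw [V_apply, U_apply]
  simp only [Matrix.mulVec, dotProduct, Pmu, mu, add_mul, ite_mul, zero_mul]
  rw [Finset.sum_add_distrib]
  congr 1
  · simp only [sub_eq_zero]
    rw [Finset.sum_ite_eq' univ x]
    simp
    ring
  · rw [← Finset.sum_filter]
    rw [div_div, Finset.sum_div]
    refine Finset.sum_bij' (fun y _ => y - x) (fun s _ => x + s) ?_ ?_ ?_ ?_ ?_
    · intro y hy; simpa using hy
    · intro s hs; simpa using hs
    · intro y _; simp
    · intro s _; simp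
    · intro y _
      simp only [add_sub_cancel]
      ring

theorem mu_nonneg (S : Finset G) (x : G) : 0 ≤ mu S x := by
  unfold mu
  have : (0 : ℝ) ≤ 1 / (2 * (S.card : ℝ)) := by positivity
  split_ifs <;> linarith

theorem mu_sum (S : Finset G) (hS : S.Nonempty) : ∑ x, mu S x = 1 := by
  unfold mu
  rw [Finset.sum_add_distrib, Finset.sum_ite_eq' univ (0 : G), Finset.sum_ite_mem]
  have : (0 : ℝ) < S.card := by exact_mod_cast hS.card_pos
  simp
  field_simp
  norm_num

theorem mu_neg (S : Finset G) (hn : ∀ s ∈ S, -s ∈ S) (x : G) : mu S (-x) = mu S x := by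
  unfold mu
  have h1 : (-x = 0) ↔ (x = 0) := neg_eq_zero
  have h2 : (-x ∈ S) ↔ (x ∈ S) := by
    constructor
    · intro h; have := hn _ h; rwa [neg_neg] at this
    · intro h; exact hn _ h
  simp only [h1, h2]

theorem mu_zero_pos (S : Finset G) : 0 < mu S 0 := by
  unfold mu
  have : (0 : ℝ) ≤ 1 / (2 * (S.card : ℝ)) := by positivity
  rw [if_pos rfl]
  split_ifs <;> linarith

theorem mu_mem_pos (S : Finset G) (x : G) (hx : x ∈ S) : 0 < mu S x := by
  unfold mu
  have : (0 : ℝ) < S.card := by exact_mod_cast Finset.card_pos.mpr ⟨x, hx⟩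
  have : (0 : ℝ) < 1 / (2 * (S.card : ℝ)) := by positivity
  rw [if_pos hx]
  split_ifs <;> linarith

end

section

variable {N : ℕ} [NeZero N]

theorem char_val (j s : ZMod N) : ZMod.stdAddChar (j * s) =
    Complex.exp ((2 * Real.pi * ((j.val : ℝ) * (s.val : ℝ)) / (N : ℝ) : ℝ) * Complex.I) := by
  have h1 : j * s = (((j.val * s.val : ℕ) : ℤ) : ZMod N) := by
    push_cast
    simp
  rw [h1, ZMod.stdAddChar_coe]
  congr 1
  push_cast
  ring

theorem char_sum_le {S : Finset (ZMod N)} {T : ℕ} (h : Bad S T) (j : ZMod N) (hj : j ≠ 0) :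
    ‖∑ s ∈ S, Complex.exp ((2 * Real.pi * ((j.val : ℝ) * (s.val : ℝ)) / (N : ℝ) : ℝ) * Complex.I)‖
      ≤ (3 / 4 : ℝ) * S.card := by
  have h1 := h.char (ZMod.stdAddChar.mulShift j) (ZMod.isPrimitive_stdAddChar N hj)
  simpa only [AddChar.mulShift_apply, char_val] using h1

theorem muHat_norm_le {S : Finset (ZMod N)} {T : ℕ} (h : Bad S T) (j : ZMod N) (hj : j ≠ 0) :
    ‖∑ x, (mu S x : ℂ) *
      Complex.exp ((2 * Real.pi * ((j.val : ℝ) * (x.val : ℝ)) / (N : ℝ) : ℝ) * Complex.I)‖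
      ≤ 7 / 8 := by
  have hSc : (0 : ℝ) < S.card := by exact_mod_cast h.nonempty.card_pos
  have h1 := char_sum_le h j hj
  set e : ZMod N → ℂ := fun x =>
    Complex.exp ((2 * Real.pi * ((j.val : ℝ) * (x.val : ℝ)) / (N : ℝ) : ℝ) * Complex.I) with he
  have h2 : ∑ x, (mu S x : ℂ) * e x =
      1 / 2 + ((1 / (2 * (S.card : ℝ)) : ℝ) : ℂ) * ∑ s ∈ S, e s := by
    have e1 : ∀ x, (mu S x : ℂ) * e x = (if x = 0 then (1 / 2 : ℂ) * e x else 0) +
        (if x ∈ S then ((1 / (2 * (S.card : ℝ)) : ℝ) : ℂ) * e x else 0) := by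
      intro x
      unfold mu
      split_ifs <;> push_cast <;> ring
    simp only [e1]
    rw [Finset.sum_add_distrib, Finset.sum_ite_eq' univ (0 : ZMod N), Finset.sum_ite_mem,
      Finset.mul_sum]
    simp [he]
  rw [h2]
  refine (norm_add_le _ _).trans ?_
  rw [norm_mul, Complex.norm_real, Real.norm_eq_abs, abs_of_nonneg (by positivity)]
  have h3 : (1 / (2 * (S.card : ℝ))) * ‖∑ s ∈ S, e s‖ ≤ 3 / 8 := by
    calc (1 / (2 * (S.card : ℝ))) * ‖∑ s ∈ S, e s‖
        ≤ (1 / (2 * (S.card : ℝ))) * ((3 / 4 : ℝ) * S.card) := by gcongr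
      _ = 3 / 8 := by field_simp; norm_num
  have h4 : ‖(1 / 2 : ℂ)‖ = 1 / 2 := by norm_num
  rw [h4]
  linarith

theorem muHat_cos_le {S : Finset (ZMod N)} {T : ℕ} (h : Bad S T) (j : ZMod N) (hj : j ≠ 0) :
    |∑ x, mu S x * Real.cos (2 * Real.pi * ((j.val : ℝ) * (x.val : ℝ)) / (N : ℝ))| ≤ 7 / 8 := by
  refine le_trans ?_ (muHat_norm_le h j hj)
  refine le_trans (le_of_eq ?_) (Complex.abs_re_le_norm _)
  congr 1
  rw [Complex.re_sum]
  refine Finset.sum_congr rfl fun x _ => ?_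
  rw [Complex.re_ofReal_mul, Complex.exp_ofReal_mul_I_re]

end

end

end Pool.Agent.Helper394
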