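import Pool.Agent.Helper394.Circ

open Finset NormedSpace
open scoped Matrix Nat

namespace Pool.Agent.Helper394

noncomputable section

section series

variable {n : Type*} [Fintype n] [DecidableEq n]

set_option backward.isDefEq.respectTransparency false in
open scoped Matrix.Norms.Operator in
theorem hasSum_exp_matrix (A : Matrix n n ℝ) :
    HasSum (fun k : ℕ => ((k ! : ℝ)⁻¹) • A ^ k) (NormedSpace.exp A) :=
  NormedSpace.exp_series_hasSum_exp' (𝕂 := ℝ) A

theorem hasSum_exp_entry (A : Matrix n n ℝ) (x y : n) :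
    HasSum (fun k : ℕ => ((k ! : ℝ)⁻¹) * (A ^ k) x y) ((NormedSpace.exp A) x y) := by
  have h := hasSum_exp_matrix A
  have h2 := (Pi.hasSum.mp h) x
  have h3 := (Pi.hasSum.mp h2) y
  simpa using h3

theorem exp_smul_one (t : ℝ) :
    NormedSpace.exp (t • (1 : Matrix n n ℝ)) = Real.exp t • (1 : Matrix n n ℝ) := by
  have h1 : t • (1 : Matrix n n ℝ) = Matrix.diagonal (fun _ => t) := by
    rw [Matrix.smul_one_eq_diagonal]
  rw [h1, Matrix.exp_diagonal]
  have h2 : NormedSpace.exp (fun _ : n => t) = fun _ => Real.exp t := by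
    ext i
    rw [Pi.coe_exp, Real.exp_eq_exp_ℝ]
  rw [h2, ← Matrix.smul_one_eq_diagonal]

theorem exp_gen (P : Matrix n n ℝ) (t : ℝ) :
    NormedSpace.exp (t • (P - 1)) = Real.exp (-t) • NormedSpace.exp (t • P) := by
  have h1 : t • (P - 1) = t • P + (-t) • (1 : Matrix n n ℝ) := by
    rw [smul_sub, neg_smul, sub_eq_add_neg]
  rw [h1, Matrix.exp_add_of_commute, exp_smul_one]
  · simp
  · exact (Commute.one_right _).smul_right _

/-- action of the heat semigroup as a Poisson mixture -/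
theorem hasSum_heat (P : Matrix n n ℝ) (t : ℝ) (f : n → ℝ) (x : n) :
    HasSum (fun k : ℕ => Real.exp (-t) * (t ^ k / k !) * ((P ^ k).mulVec f) x)
      ((NormedSpace.exp (t • (P - 1))).mulVec f x) := by
  rw [exp_gen]
  have h1 : ∀ y, HasSum (fun k : ℕ => (Real.exp (-t) * (((k ! : ℝ)⁻¹) * ((t • P) ^ k) x y)) * f y)
      ((Real.exp (-t) • NormedSpace.exp (t • P)) x y * f y) := by
    intro y
    exact ((hasSum_exp_entry (t • P) x y).mul_left _).mul_right _
  have h2 := hasSum_sum (s := univ) fun y _ => h1 y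
  have e1 : (fun k : ℕ => Real.exp (-t) * (t ^ k / k !) * ((P ^ k).mulVec f) x) =
      fun k : ℕ => ∑ y, (Real.exp (-t) * (((k ! : ℝ)⁻¹) * ((t • P) ^ k) x y)) * f y := by
    ext k
    rw [smul_pow]
    simp only [Matrix.mulVec, dotProduct, Matrix.smul_apply, smul_eq_mul]
    rw [Finset.mul_sum]
    refine Finset.sum_congr rfl fun y _ => ?_
    rw [div_eq_mul_inv]
    ring
  rw [e1]
  exact h2

theorem hasSum_poisson (t r : ℝ) :
    HasSum (fun k : ℕ => Real.exp (-t) * (t ^ k / k !) * r ^ k) (Real.exp (t * (r - 1))) := by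
  have h := (NormedSpace.expSeries_div_hasSum_exp (t * r : ℝ)).mul_left (Real.exp (-t))
  rw [← Real.exp_eq_exp_ℝ, ← Real.exp_add] at h
  have e1 : -t + t * r = t * (r - 1) := by ring
  rw [e1] at h
  have e2 : (fun k : ℕ => Real.exp (-t) * (t ^ k / k !) * r ^ k) =
      fun k : ℕ => Real.exp (-t) * ((t * r) ^ k / k !) := by
    ext k
    rw [mul_pow]
    ring
  rw [e2]
  exact h

theorem heat_le (P : Matrix n n ℝ) (t : ℝ) (ht : 0 ≤ t) (f : n → ℝ) (x : n) (α β r : ℝ)
    (h : ∀ k : ℕ, ((P ^ k).mulVec f) x ≤ α + β * r ^ k) :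
    (NormedSpace.exp (t • (P - 1))).mulVec f x ≤ α + β * Real.exp (t * (r - 1)) := by
  have h1 := hasSum_heat P t f x
  have h2 := ((hasSum_poisson t 1).mul_left α).add ((hasSum_poisson t r).mul_left β)
  simp only [sub_self, mul_zero, Real.exp_zero, mul_one] at h2
  refine hasSum_le (fun k => ?_) h1 h2
  have h3 : 0 ≤ Real.exp (-t) * (t ^ k / k !) := by positivity
  have h4 := mul_le_mul_of_nonneg_left (h k) h3
  calc _ ≤ _ := h4
    _ = _ := by ring

theorem heat_ge (P : Matrix n n ℝ) (t : ℝ) (ht : 0 ≤ t) (f : n → ℝ) (x : n) (α β r : ℝ)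
    (h : ∀ k : ℕ, α + β * r ^ k ≤ ((P ^ k).mulVec f) x) :
    α + β * Real.exp (t * (r - 1)) ≤ (NormedSpace.exp (t • (P - 1))).mulVec f x := by
  have h1 := hasSum_heat P t f x
  have h2 := ((hasSum_poisson t 1).mul_left α).add ((hasSum_poisson t r).mul_left β)
  simp only [sub_self, mul_zero, Real.exp_zero, mul_one] at h2
  refine hasSum_le (fun k => ?_) h2 h1
  have h3 : 0 ≤ Real.exp (-t) * (t ^ k / k !) := by positivity
  have h4 := mul_le_mul_of_nonneg_left (h k) h3
  calc _ = Real.exp (-t) * (t ^ k / k !) * (α + β * r ^ k) := by ring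
    _ ≤ _ := h4

end series

section bad

variable {G : Type} [AddCommGroup G] [Fintype G] [DecidableEq G]

/-- transition matrix of the simple random walk with steps in `S` -/
def Pn (S : Finset G) : Matrix G G ℝ := fun x y => if y - x ∈ S then 1 / (S.card : ℝ) else 0

theorem Pn_mulVec (S : Finset G) (f : G → ℝ) : (Pn S).mulVec f = U S f := by
  ext x
  rw [U_apply]
  simp only [Matrix.mulVec, dotProduct, Pn, ite_mul, zero_mul]
  rw [← Finset.sum_filter, Finset.sum_div]
  refine Finset.sum_bij' (fun y _ => y - x) (fun s _ => x + s) ?_ ?_ ?_ ?_ ?_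
  · intro y hy; simpa using hy
  · intro s hs; simpa using hs
  · intro y _; simp
  · intro s _; simp
  · intro y _
    simp only [add_sub_cancel]
    ring

theorem U_pow_translate (S : Finset G) (k : ℕ) (f : G → ℝ) (x z : G) :
    (U S ^ k) f (x + z) = (U S ^ k) (fun y => f (y + z)) x := by
  induction k generalizing x with
  | zero => simp
  | succ k ih =>
    rw [U_pow_succ_apply, U_pow_succ_apply, U_apply, U_apply]
    congr 1
    refine Finset.sum_congr rfl fun s _ => ?_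
    rw [← ih (x + s), add_right_comm]

variable {P : Matrix G G ℝ} {S : Finset G} {m : ℕ}

theorem heat_row_sum (h : Bad S (8 * m)) (hP : ∀ f : G → ℝ, P.mulVec f = U S f) (t : ℝ)
    (ht : 0 ≤ t) (x : G) : ∑ y, (NormedSpace.exp (t • (P - 1))) x y = 1 := by
  have h1 : ∀ k : ℕ, ((P ^ k).mulVec (fun _ => (1 : ℝ))) x = 1 := by
    intro k
    rw [mat_pow hP, U_pow_const S h.nonempty]
  have h2 := heat_le P t ht (fun _ => (1 : ℝ)) x 1 0 0 (fun k => by rw [h1 k]; simp)
  have h3 := heat_ge P t ht (fun _ => (1 : ℝ)) x 1 0 0 (fun k => by rw [h1 k]; simp)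
  have h4 : (NormedSpace.exp (t • (P - 1))).mulVec (fun _ => (1 : ℝ)) x =
      ∑ y, (NormedSpace.exp (t • (P - 1))) x y := by
    simp [Matrix.mulVec, dotProduct]
  rw [h4] at h2 h3
  simp at h2 h3
  linarith

theorem num1 (m : ℕ) (hm : 8 ≤ m) (t : ℝ) (ht : t ≤ 4 * m) :
    (1 / 2 : ℝ) ^ (8 * m) * Real.exp t ≤ 1 / 100 := by
  have h1 : Real.exp t ≤ Real.exp 1 ^ (4 * m) := by
    rw [← Real.exp_nat_mul]
    apply Real.exp_le_exp.mpr
    push_cast
    linarith
  have h2 : Real.exp 1 ≤ 2.72 := by have := Real.exp_one_lt_d9; linarith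
  have h3 : Real.exp 1 ^ (4 * m) ≤ (2.72 : ℝ) ^ (4 * m) :=
    pow_le_pow_left₀ (Real.exp_pos _).le h2 _
  calc (1 / 2 : ℝ) ^ (8 * m) * Real.exp t ≤ (1 / 2 : ℝ) ^ (8 * m) * (2.72 : ℝ) ^ (4 * m) := by
        gcongr; linarith
    _ = (((1 / 2 : ℝ) ^ 8) * (2.72 : ℝ) ^ 4) ^ m := by
        rw [pow_mul, pow_mul, ← mul_pow]
    _ ≤ (1 / 4 : ℝ) ^ m := by
        apply pow_le_pow_left₀ (by positivity)
        norm_num
    _ ≤ (1 / 4 : ℝ) ^ 8 := pow_le_pow_of_le_one (by norm_num) (by norm_num) hm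
    _ ≤ 1 / 100 := by norm_num

theorem num2 (m : ℕ) (hm : 8 ≤ m) (t : ℝ) (ht : 2 * m ≤ t) :
    (2 : ℝ) ^ m * Real.exp (t * (1 / 2 - 1)) ≤ 1 / 2 := by
  have h1 : Real.exp (t * (1 / 2 - 1)) ≤ (Real.exp 1 ^ m)⁻¹ := by
    rw [← Real.exp_nat_mul, ← Real.exp_neg]
    apply Real.exp_le_exp.mpr
    linarith
  have h2 : (2.7 : ℝ) ≤ Real.exp 1 := by have := Real.exp_one_gt_d9; linarith
  have h3 : (2.7 : ℝ) ^ m ≤ Real.exp 1 ^ m := pow_le_pow_left₀ (by norm_num) h2 _
  have h4 : (Real.exp 1 ^ m)⁻¹ ≤ ((2.7 : ℝ) ^ m)⁻¹ := inv_anti₀ (by positivity) h3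
  calc (2 : ℝ) ^ m * Real.exp (t * (1 / 2 - 1)) ≤ (2 : ℝ) ^ m * ((2.7 : ℝ) ^ m)⁻¹ := by
        gcongr; linarith
    _ = (2 / 2.7 : ℝ) ^ m := by rw [div_pow]; rfl
    _ ≤ (2 / 2.7 : ℝ) ^ 8 := pow_le_pow_of_le_one (by norm_num) (by norm_num) hm
    _ ≤ 1 / 2 := by norm_num

/-- far from uniform up to time `4m` -/
theorem heat_lower (hm : 8 ≤ m) (h : Bad S (8 * m)) (hP : ∀ f : G → ℝ, P.mulVec f = U S f)
    (t : ℝ) (ht0 : 0 ≤ t) (ht : t ≤ 4 * m) (x : G) :
    1 / 2 < (1 / 2 : ℝ) * ∑ y, |(NormedSpace.exp (t • (P - 1))) x y -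
      1 / (Fintype.card G : ℝ)| := by
  obtain ⟨E, hE, hl⟩ := h.lower
  -- translate of E
  set E' : Finset G := univ.filter fun y => y - x ∈ E with hE'
  have hE'card : E'.card = E.card := by
    refine Finset.card_bij' (fun y _ => y - x) (fun y _ => y + x) ?_ ?_ ?_ ?_
    · intro y hy; simpa [hE'] using hy
    · intro y hy; simpa [hE'] using hy
    · intro y _; simp
    · intro y _; simp
  set f : G → ℝ := fun y => if y ∈ E' then (1 : ℝ) else 0 with hf
  have h1 : ∀ k : ℕ, k ≤ 8 * m → (21 / 32 : ℝ) ≤ ((P ^ k).mulVec f) x := by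
    intro k hk
    rw [mat_pow hP]
    have h2 := U_pow_translate S k f 0 x
    rw [zero_add] at h2
    rw [h2]
    have h3 : (fun y => f (y + x)) = fun y => if y ∈ E then (1 : ℝ) else 0 := by
      ext y
      simp [hf, hE']
    rw [h3]
    exact hl k hk
  have h2 : ∀ k : ℕ, (21 / 32 : ℝ) + (-(1 / 2 : ℝ) ^ (8 * m)) * 2 ^ k ≤ ((P ^ k).mulVec f) x := by
    intro k
    by_cases hk : k ≤ 8 * m
    · have h3 := h1 k hk
      have h4 : 0 ≤ (1 / 2 : ℝ) ^ (8 * m) * 2 ^ k := by positivity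
      linarith
    · push Not at hk
      have h3 : 0 ≤ ((P ^ k).mulVec f) x := by
        rw [mat_pow hP]
        apply U_pow_nonneg
        intro y
        simp only [hf]
        split_ifs <;> norm_num
      have h4 : 1 ≤ (1 / 2 : ℝ) ^ (8 * m) * 2 ^ k := by
        calc (1 : ℝ) = (1 / 2 : ℝ) ^ (8 * m) * 2 ^ (8 * m) := by
              rw [← mul_pow]; norm_num
          _ ≤ (1 / 2 : ℝ) ^ (8 * m) * 2 ^ k := by
              gcongr
              norm_num
      linarith
  have h3 := heat_ge P t ht0 f x _ _ _ h2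
  have h4 : (2 : ℝ) - 1 = 1 := by norm_num
  rw [h4, mul_one] at h3
  have h5 := num1 m hm t ht
  have hG : (0 : ℝ) < Fintype.card G := by exact_mod_cast Fintype.card_pos
  -- total variation
  set p : G → ℝ := fun y => (NormedSpace.exp (t • (P - 1))) x y with hp
  have hp1 : ∑ y, p y = 1 := heat_row_sum h hP t ht0 x
  have hpf : (NormedSpace.exp (t • (P - 1))).mulVec f x = ∑ y, p y * f y := rfl
  rw [hpf] at h3
  have h6 : (64 / 100 : ℝ) ≤ ∑ y, p y * f y := by linarith
  set q : G → ℝ := fun y => p y - 1 / (Fintype.card G : ℝ) with hq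
  have hq0 : ∑ y, q y = 0 := by
    simp only [hq]
    rw [Finset.sum_sub_distrib, hp1]
    simp only [Finset.sum_const, Finset.card_univ, nsmul_eq_mul]
    field_simp
    norm_num
  have h7 : ∑ y, q y * (2 * f y - 1) ≤ ∑ y, |q y| := by
    apply Finset.sum_le_sum
    intro y _
    simp only [hf]
    split_ifs
    · have := le_abs_self (q y); linarith
    · have := neg_abs_le (q y); linarith
  have h8 : ∑ y, q y * (2 * f y - 1) =
      2 * (∑ y, p y * f y) - 2 * (E.card / Fintype.card G) := by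
    have e1 : ∀ y, q y * (2 * f y - 1) =
        2 * (p y * f y) - (2 / (Fintype.card G : ℝ)) * f y - q y := by
      intro y
      simp only [hq]
      ring
    simp only [e1]
    rw [Finset.sum_sub_distrib, Finset.sum_sub_distrib, hq0, ← Finset.mul_sum, ← Finset.mul_sum]
    have e2 : ∑ y, f y = E.card := by
      simp only [hf]
      rw [← hE'card]
      simp
    rw [e2]
    ring
  have h9 : (E.card : ℝ) / Fintype.card G ≤ 1 / 8 := by
    rw [div_le_div_iff₀ hG (by norm_num)]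
    linarith
  change 1 / 2 < (1 / 2 : ℝ) * ∑ y, |q y|
  linarith

/-- minorisation from time `2m` on -/
theorem heat_upper (hm : 8 ≤ m) (h : Bad S (8 * m)) (hP : ∀ f : G → ℝ, P.mulVec f = U S f)
    (t : ℝ) (ht : 2 * m ≤ t) (f : G → ℝ) (hf : ∀ x, 0 ≤ f x) (x : G) :
    (1 / 2000 : ℝ) * ((∑ y, f y) / Fintype.card G) ≤
      (NormedSpace.exp (t • (P - 1))).mulVec f x := by
  have ht0 : 0 ≤ t := by
    have : (0 : ℝ) ≤ 2 * m := by positivity
    linarith
  set mn := (∑ y, f y) / Fintype.card G with hmn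
  have hmn0 : 0 ≤ mn := div_nonneg (Finset.sum_nonneg fun _ _ => hf _) (by positivity)
  have h1 : ∀ k : ℕ, (1 / 1000 : ℝ) * mn + (-((1 / 1000 : ℝ) * mn * 2 ^ m)) * (1 / 2) ^ k ≤
      ((P ^ k).mulVec f) x := by
    intro k
    rw [mat_pow hP]
    by_cases hk : m ≤ k
    · have h2 := h.upper k (by omega) f hf x
      have h3 : 0 ≤ ((1 / 1000 : ℝ) * mn * 2 ^ m) * (1 / 2) ^ k := by positivity
      linarith
    · push Not at hk
      have h3 := U_pow_nonneg S k hf x
      have h4 : 1 ≤ (2 : ℝ) ^ m * (1 / 2) ^ k := by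
        calc (1 : ℝ) = (2 : ℝ) ^ m * (1 / 2) ^ m := by rw [← mul_pow]; norm_num
          _ ≤ (2 : ℝ) ^ m * (1 / 2) ^ k := by
              apply mul_le_mul_of_nonneg_left _ (by positivity)
              exact pow_le_pow_of_le_one (by norm_num) (by norm_num) hk.le
      have h5 : (1 / 1000 : ℝ) * mn ≤ (1 / 1000 : ℝ) * mn * ((2 : ℝ) ^ m * (1 / 2) ^ k) := by
        have : 0 ≤ (1 / 1000 : ℝ) * mn := by positivity
        nlinarith
      linarith
  have h2 := heat_ge P t ht0 f x _ _ _ h1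
  have h3 := num2 m hm t ht
  refine le_trans ?_ h2
  have h4 : 0 ≤ (1 / 1000 : ℝ) * mn := by positivity
  have h5 := mul_le_mul_of_nonneg_left h3 h4
  linarith

theorem heat_upper_entry (hm : 8 ≤ m) (h : Bad S (8 * m))
    (hP : ∀ f : G → ℝ, P.mulVec f = U S f)
    (t : ℝ) (ht : 2 * m ≤ t) (x y : G) :
    (1 / 2000 : ℝ) / Fintype.card G ≤ (NormedSpace.exp (t • (P - 1))) x y := by
  have := heat_upper hm h hP t ht (Pi.single y 1) (fun z => by
    rw [Pi.single_apply]; split_ifs <;> norm_num) x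
  rw [Finset.sum_pi_single' y (1 : ℝ) univ] at this
  simp only [Finset.mem_univ, if_true] at this
  rw [Matrix.mulVec_single_one] at this
  calc (1 / 2000 : ℝ) / Fintype.card G = (1 / 2000 : ℝ) * (1 / Fintype.card G) := by ring
    _ ≤ _ := this

theorem heat_tv_upper (hm : 8 ≤ m) (h : Bad S (8 * m))
    (hP : ∀ f : G → ℝ, P.mulVec f = U S f)
    (t : ℝ) (ht : 2 * m ≤ t) (x : G) :
    (1 / 2 : ℝ) * ∑ y, |(NormedSpace.exp (t • (P - 1))) x y - 1 / (Fintype.card G : ℝ)| ≤
      1 - 1 / 2000 := by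
  have ht0 : 0 ≤ t := by
    have : (0 : ℝ) ≤ 2 * m := by positivity
    linarith
  exact tv_le _ (heat_row_sum h hP t ht0 x) _ (fun y => heat_upper_entry hm h hP t ht x y)
    (by norm_num)

/-- convergence -/
theorem heat_conv (hm : 8 ≤ m) (h : Bad S (8 * m))
    (hP : ∀ f : G → ℝ, P.mulVec f = U S f) (ε : ℝ) (hε : 0 < ε) :
    ∃ t : ℝ, 0 ≤ t ∧ ∀ x y, |(NormedSpace.exp (t • (P - 1))) x y -
      1 / (Fintype.card G : ℝ)| ≤ ε := by
  obtain ⟨k, hk⟩ := exists_pow_lt_of_lt_one hε (show (1 - 1 / 2000 : ℝ) < 1 by norm_num)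
  refine ⟨k * (2 * m), by positivity, fun x y => ?_⟩
  set W0 : Matrix G G ℝ := NormedSpace.exp ((2 * m : ℝ) • (P - 1)) with hW0
  let W : Module.End ℝ (G → ℝ) := Matrix.toLin' W0
  have hW : ∀ f, W f = W0.mulVec f := fun f => Matrix.toLin'_apply _ _
  have hpow : NormedSpace.exp (((k : ℝ) * (2 * m)) • (P - 1)) = W0 ^ k := by
    rw [mul_smul, hW0, ← Matrix.exp_nsmul]
    congr 1
    rw [← Nat.cast_smul_eq_nsmul ℝ]
  have hsum : ∀ f : G → ℝ, ∑ x, W f x = ∑ x, f x := by
    intro f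
    have h1 : ∀ x, HasSum (fun j : ℕ => Real.exp (-(2 * m : ℝ)) * ((2 * m : ℝ) ^ j / j !) *
        ((P ^ j).mulVec f) x) (W f x) := by
      intro x
      rw [hW]
      exact hasSum_heat P (2 * m) f x
    have h2 := hasSum_sum (s := univ) fun x (_ : x ∈ univ) => h1 x
    have h3 : (fun j : ℕ => ∑ x, Real.exp (-(2 * m : ℝ)) * ((2 * m : ℝ) ^ j / j !) *
        ((P ^ j).mulVec f) x) =
        fun j : ℕ => (∑ x, f x) * (Real.exp (-(2 * m : ℝ)) * ((2 * m : ℝ) ^ j / j !) * 1 ^ j) := by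
      ext j
      rw [← Finset.mul_sum, mat_pow hP, sum_U_pow S h.nonempty]
      ring
    rw [h3] at h2
    have h4 := (hasSum_poisson (2 * m) 1).mul_left (∑ x, f x)
    simp only [sub_self, mul_zero, Real.exp_zero, mul_one] at h4
    exact h2.unique (by simpa using h4)
  have h1 := doeblin W (1 / 2000)
    (fun a => by
      ext x
      rw [hW]
      have h2 := heat_le P (2 * m) (by positivity) (fun _ => a) x a 0 0 (fun k => by
        rw [mat_pow hP, U_pow_const S h.nonempty]; simp)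
      have h3 := heat_ge P (2 * m) (by positivity) (fun _ => a) x a 0 0 (fun k => by
        rw [mat_pow hP, U_pow_const S h.nonempty]; simp)
      rw [zero_mul, add_zero] at h2 h3
      exact le_antisymm h2 h3)
    hsum
    (fun f hf x => by
      rw [hW]
      exact heat_upper hm h hP (2 * m) le_rfl f hf x) (Pi.single y 1) 0 1
    (fun z => by rw [Pi.single_apply]; split_ifs <;> norm_num)
    (fun z => by rw [Pi.single_apply]; split_ifs <;> norm_num) k x
  rw [Finset.sum_pi_single' y (1 : ℝ) univ] at h1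
  simp only [Finset.mem_univ, if_true, sub_zero, mul_one] at h1
  have h2 : (W ^ k) (Pi.single y 1) x = (NormedSpace.exp (((k : ℝ) * (2 * m)) • (P - 1))) x y := by
    rw [hpow, ← mat_pow (P := W0) (W := W) (fun f => (hW f).symm)]
    simp
  rw [h2] at h1
  exact h1.trans hk.le

end bad

end

end Pool.Agent.Helper394
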