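import Pool.Agent.Helper394.Main

open Finset

namespace Pool.Agent.Helper394

noncomputable section

section gen

variable {G : Type*} [AddCommGroup G]

/-- lazy version of the averaging operator -/
def V (S : Finset G) : Module.End ℝ (G → ℝ) := (1 / 2 : ℝ) • (1 + U S)

theorem V_apply (S : Finset G) (f : G → ℝ) (x : G) :
    V S f x = f x / 2 + U S f x / 2 := by
  simp [V]
  ring

theorem V_pow_apply (S : Finset G) (t : ℕ) (f : G → ℝ) (x : G) :
    (V S ^ t) f x = (1 / 2 : ℝ) ^ t * ∑ k ∈ range (t + 1), (t.choose k : ℝ) * (U S ^ k) f x := by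
  rw [V, smul_pow]
  rw [show (1 + U S) = (U S + 1) from add_comm _ _, (Commute.one_right (U S)).add_pow]
  simp only [one_pow, mul_one, LinearMap.smul_apply, Pi.smul_apply, smul_eq_mul,
    LinearMap.sum_apply, Finset.sum_apply]
  congr 1
  refine Finset.sum_congr rfl fun k _ => ?_
  rw [Module.End.mul_apply, Module.End.natCast_apply, map_nsmul]
  simp

theorem V_pow_succ_apply (S : Finset G) (n : ℕ) (f : G → ℝ) :
    (V S ^ (n + 1)) f = V S ((V S ^ n) f) := by
  rw [pow_succ']; rfl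

theorem V_pow_succ_apply' (S : Finset G) (n : ℕ) (f : G → ℝ) :
    (V S ^ (n + 1)) f = (V S ^ n) (V S f) := by
  rw [pow_succ]; rfl

theorem V_pow_nonneg (S : Finset G) (n : ℕ) {f : G → ℝ} (h : ∀ x, 0 ≤ f x) (x : G) :
    0 ≤ (V S ^ n) f x := by
  rw [V_pow_apply]
  apply mul_nonneg (by positivity)
  exact Finset.sum_nonneg fun k _ => mul_nonneg (by positivity) (U_pow_nonneg S k h x)

theorem V_pow_const (S : Finset G) (hS : S.Nonempty) (n : ℕ) (c : ℝ) :
    (V S ^ n) (fun _ => c) = fun _ => c := by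
  induction n with
  | zero => simp
  | succ n ih =>
    rw [V_pow_succ_apply, ih]
    ext x
    rw [V_apply, U_const S hS]
    ring

theorem sum_V_pow [Fintype G] (S : Finset G) (hS : S.Nonempty) (n : ℕ) (f : G → ℝ) :
    ∑ x, (V S ^ n) f x = ∑ x, f x := by
  induction n with
  | zero => simp
  | succ n ih =>
    rw [V_pow_succ_apply]
    simp only [V_apply]
    rw [Finset.sum_add_distrib, ← Finset.sum_div, ← Finset.sum_div, sum_U S hS, ih]
    ring

theorem sum_choose_half (t : ℕ) : (1 / 2 : ℝ) ^ t * ∑ k ∈ range (t + 1), (t.choose k : ℝ) = 1 := by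
  have h := Nat.sum_range_choose t
  have h' : ∑ k ∈ range (t + 1), (t.choose k : ℝ) = 2 ^ t := by exact_mod_cast h
  rw [h', ← mul_pow]
  norm_num

theorem sum_choose_upper (m : ℕ) :
    (1 / 2 : ℝ) ≤ (1 / 2 : ℝ) ^ (2 * m + 1) *
      ∑ k ∈ (range (2 * m + 1 + 1)).filter (fun k => m + 1 ≤ k), ((2 * m + 1).choose k : ℝ) := by
  have h1 := Nat.sum_range_choose_halfway m
  have h1' : ∑ i ∈ range (m + 1), ((2 * m + 1).choose i : ℝ) = 4 ^ m := by exact_mod_cast h1
  have h2 := sum_choose_half (2 * m + 1)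
  have h3 : ∑ k ∈ range (2 * m + 1 + 1), ((2 * m + 1).choose k : ℝ) =
      ∑ k ∈ (range (2 * m + 1 + 1)).filter (fun k => m + 1 ≤ k), ((2 * m + 1).choose k : ℝ) +
      ∑ i ∈ range (m + 1), ((2 * m + 1).choose i : ℝ) := by
    rw [← Finset.sum_filter_add_sum_filter_not (range (2 * m + 1 + 1)) (fun k => m + 1 ≤ k)]
    congr 1
    apply Finset.sum_congr _ fun _ _ => rfl
    ext k
    simp only [mem_filter, mem_range]
    omega
  have h4 : (1 / 2 : ℝ) ^ (2 * m + 1) * 4 ^ m = 1 / 2 := by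
    rw [pow_succ, pow_mul]
    rw [show ((1 / 2 : ℝ) ^ 2) ^ m * (1 / 2) * 4 ^ m = ((1 / 2 : ℝ) ^ 2 * 4) ^ m * (1 / 2) by
      rw [mul_pow]; ring]
    norm_num
  rw [h3, mul_add, h1', h4] at h2
  linarith

end gen

section bad

variable {G : Type*} [AddCommGroup G] [Fintype G] [DecidableEq G]

theorem Bad.nonempty {S : Finset G} {T : ℕ} (h : Bad S T) : S.Nonempty := by
  by_contra hcon
  rw [Finset.not_nonempty_iff_eq_empty] at hcon
  have h1 := h.upper (T + 1) (by omega) (fun _ => 1) (fun _ => zero_le_one) 0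
  rw [hcon, U_pow_succ_apply, U_apply] at h1
  simp at h1
  norm_num at h1

theorem Bad.lazy_lower {S : Finset G} {T : ℕ} (h : Bad S T) :
    ∃ E : Finset G, 8 * (E.card : ℝ) ≤ Fintype.card G ∧
    ∀ j ≤ T, (21 / 32 : ℝ) ≤ (V S ^ j) (fun x => if x ∈ E then (1 : ℝ) else 0) 0 := by
  obtain ⟨E, hE, hl⟩ := h.lower
  refine ⟨E, hE, fun j hj => ?_⟩
  rw [V_pow_apply]
  have h1 := sum_choose_half j
  calc (21 / 32 : ℝ) = (1 / 2 : ℝ) ^ j * ∑ k ∈ range (j + 1), (j.choose k : ℝ) * (21 / 32) := by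
        rw [← Finset.sum_mul, ← mul_assoc, h1, one_mul]
    _ ≤ _ := by
        apply mul_le_mul_of_nonneg_left _ (by positivity)
        apply Finset.sum_le_sum
        intro k hk
        apply mul_le_mul_of_nonneg_left _ (by positivity)
        apply hl
        rw [Finset.mem_range] at hk
        omega

theorem Bad.lazy_upper {S : Finset G} {T : ℕ} (h : Bad S T) (m : ℕ) (hm : T ≤ 8 * (m + 1))
    (f : G → ℝ) (hf : ∀ x, 0 ≤ f x) (x : G) :
    (1 / 2000 : ℝ) * ((∑ y, f y) / Fintype.card G) ≤ (V S ^ (2 * m + 1)) f x := by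
  rw [V_pow_apply]
  set mn := (∑ y, f y) / Fintype.card G with hmn
  have hmn0 : 0 ≤ mn := div_nonneg (Finset.sum_nonneg fun _ _ => hf _) (by positivity)
  calc (1 / 2000 : ℝ) * mn = (1 / 2) * ((1 / 1000) * mn) := by ring
    _ ≤ ((1 / 2 : ℝ) ^ (2 * m + 1) *
      ∑ k ∈ (range (2 * m + 1 + 1)).filter (fun k => m + 1 ≤ k), ((2 * m + 1).choose k : ℝ)) *
        ((1 / 1000) * mn) := by
        apply mul_le_mul_of_nonneg_right (sum_choose_upper m) (by positivity)
    _ = (1 / 2 : ℝ) ^ (2 * m + 1) *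
      ∑ k ∈ (range (2 * m + 1 + 1)).filter (fun k => m + 1 ≤ k),
        ((2 * m + 1).choose k : ℝ) * ((1 / 1000) * mn) := by
        rw [← Finset.sum_mul]; ring
    _ ≤ (1 / 2 : ℝ) ^ (2 * m + 1) *
      ∑ k ∈ (range (2 * m + 1 + 1)).filter (fun k => m + 1 ≤ k),
        ((2 * m + 1).choose k : ℝ) * (U S ^ k) f x := by
        apply mul_le_mul_of_nonneg_left _ (by positivity)
        apply Finset.sum_le_sum
        intro k hk
        apply mul_le_mul_of_nonneg_left _ (by positivity)
        rw [Finset.mem_filter] at hk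
        exact h.upper k (by omega) f hf x
    _ ≤ _ := by
        apply mul_le_mul_of_nonneg_left _ (by positivity)
        apply Finset.sum_le_sum_of_subset_of_nonneg (Finset.filter_subset _ _)
        intro k _ _
        exact mul_nonneg (by positivity) (U_pow_nonneg S k hf x)

/-- a Doeblin type contraction -/
theorem doeblin (W : Module.End ℝ (G → ℝ)) (c : ℝ)
    (hconst : ∀ a : ℝ, W (fun _ => a) = fun _ => a)
    (hsum : ∀ f : G → ℝ, ∑ x, W f x = ∑ x, f x)
    (hmin : ∀ f : G → ℝ, (∀ x, 0 ≤ f x) → ∀ x, c * ((∑ y, f y) / Fintype.card G) ≤ W f x)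
    (f : G → ℝ) (a b : ℝ) (ha : ∀ x, a ≤ f x) (hb : ∀ x, f x ≤ b) (k : ℕ) (x : G) :
    |(W ^ k) f x - (∑ y, f y) / Fintype.card G| ≤ (1 - c) ^ k * (b - a) := by
  set mn := (∑ y, f y) / Fintype.card G with hmn
  have hG : (0 : ℝ) < Fintype.card G := by exact_mod_cast Fintype.card_pos
  have hmean : ∀ k, (∑ y, (W ^ k) f y) / Fintype.card G = mn := by
    intro k
    induction k with
    | zero => simp [hmn]
    | succ k ih =>
      rw [pow_succ']
      rw [show (W * W ^ k) f = W ((W ^ k) f) from rfl, hsum, ih]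
  have key : ∀ k, ∃ u v : ℝ, (∀ x, u ≤ (W ^ k) f x) ∧ (∀ x, (W ^ k) f x ≤ v) ∧
      v - u = (1 - c) ^ k * (b - a) := by
    intro k
    induction k with
    | zero => exact ⟨a, b, by simpa using ha, by simpa using hb, by simp⟩
    | succ k ih =>
      obtain ⟨u, v, hu, hv, huv⟩ := ih
      refine ⟨u + c * (mn - u), v - c * (v - mn), ?_, ?_, ?_⟩
      · intro x
        have h1 := hmin ((W ^ k) f - fun _ => u) (fun x => by
          rw [Pi.sub_apply]; linarith [hu x]) x
        rw [map_sub, hconst] at h1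
        simp only [Pi.sub_apply, Finset.sum_sub_distrib, Finset.sum_const, Finset.card_univ,
          nsmul_eq_mul] at h1
        rw [sub_div, hmean, mul_div_assoc] at h1
        rw [pow_succ', show (W * W ^ k) f = W ((W ^ k) f) from rfl]
        have h2 : (Fintype.card G : ℝ) * (u / Fintype.card G) = u := by field_simp
        rw [h2] at h1
        linarith
      · intro x
        have h1 := hmin ((fun _ => v) - (W ^ k) f) (fun x => by
          rw [Pi.sub_apply]; linarith [hv x]) x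
        rw [map_sub, hconst] at h1
        simp only [Pi.sub_apply, Finset.sum_sub_distrib, Finset.sum_const, Finset.card_univ,
          nsmul_eq_mul] at h1
        rw [sub_div, hmean, mul_div_assoc] at h1
        rw [pow_succ', show (W * W ^ k) f = W ((W ^ k) f) from rfl]
        have h2 : (Fintype.card G : ℝ) * (v / Fintype.card G) = v := by field_simp
        rw [h2] at h1
        linarith
      · rw [pow_succ]
        linear_combination (1 - c) * huv
  obtain ⟨u, v, hu, hv, huv⟩ := key k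
  have h1 : u ≤ mn := by
    rw [← hmean k, le_div_iff₀ hG]
    calc u * Fintype.card G = ∑ _y : G, u := by simp [mul_comm]
      _ ≤ _ := Finset.sum_le_sum fun y _ => hu y
  have h2 : mn ≤ v := by
    rw [← hmean k, div_le_iff₀ hG]
    calc ∑ y, (W ^ k) f y ≤ ∑ _y : G, v := Finset.sum_le_sum fun y _ => hv y
      _ = v * Fintype.card G := by simp [mul_comm]
  rw [← huv, abs_le]
  have := hu x
  have := hv x
  constructor <;> linarith

/-- completeness of characters -/
theorem exists_char (f : G → ℝ) (hf : f ≠ 0) :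
    ∃ χ : AddChar G ℂ, ∑ x, (f x : ℂ) * χ x ≠ 0 := by
  by_contra hcon
  push Not at hcon
  apply hf
  ext y
  have h1 : ∑ χ : AddChar G ℂ, χ (-y) * ∑ x, (f x : ℂ) * χ x = 0 := by
    apply Finset.sum_eq_zero
    intro χ _
    rw [hcon, mul_zero]
  have h2 : ∑ χ : AddChar G ℂ, χ (-y) * ∑ x, (f x : ℂ) * χ x =
      ∑ x, (f x : ℂ) * ∑ χ : AddChar G ℂ, χ (x - y) := by
    simp only [Finset.mul_sum]
    rw [Finset.sum_comm]
    refine Finset.sum_congr rfl fun x _ => Finset.sum_congr rfl fun χ _ => ?_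
    rw [sub_eq_add_neg, AddChar.map_add_eq_mul]
    ring
  rw [h2] at h1
  simp only [AddChar.sum_apply_eq_ite, sub_eq_zero, mul_ite, mul_zero] at h1
  rw [Finset.sum_ite_eq' univ y] at h1
  simp only [Finset.mem_univ, if_true] at h1
  have hG : (Fintype.card G : ℂ) ≠ 0 := by exact_mod_cast Fintype.card_ne_zero
  rcases mul_eq_zero.mp h1 with h | h
  · simpa using h
  · exact absurd h hG

/-- eigenvalues of the averaging operator different from one are at most 3/4 in size -/
theorem Bad.eigen {S : Finset G} {T : ℕ} (h : Bad S T) (f : G → ℝ) (hf : f ≠ 0) (lam : ℝ)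
    (hlam : ∀ x, U S f x = lam * f x) (h1 : lam ≠ 1) : |lam| ≤ 3 / 4 := by
  obtain ⟨χ, hχ⟩ := exists_char f hf
  have hS := h.nonempty
  have hSc : (0 : ℝ) < S.card := by exact_mod_cast hS.card_pos
  have hSc' : (S.card : ℂ) ≠ 0 := by exact_mod_cast hSc.ne'
  set F := ∑ x, (f x : ℂ) * χ x with hF
  have key : ((lam : ℂ) * S.card) * F = (∑ s ∈ S, χ s) * F := by
    have e1 : ∀ x, (lam : ℂ) * S.card * (f x : ℂ) = ∑ s ∈ S, (f (x + s) : ℂ) := by
      intro x
      have h2 := hlam x
      rw [U_apply, div_eq_iff hSc.ne'] at h2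
      have h3 : ((∑ s ∈ S, f (x + s) : ℝ) : ℂ) = ((lam * f x * S.card : ℝ) : ℂ) := by rw [h2]
      push_cast at h3
      rw [h3]; ring
    calc ((lam : ℂ) * S.card) * F = ∑ x, ((lam : ℂ) * S.card * (f x : ℂ)) * χ x := by
          rw [hF, Finset.mul_sum]
          refine Finset.sum_congr rfl fun x _ => by ring
      _ = ∑ x, ∑ s ∈ S, (f (x + s) : ℂ) * χ x := by
          refine Finset.sum_congr rfl fun x _ => ?_
          rw [e1, Finset.sum_mul]
      _ = ∑ s ∈ S, ∑ x, (f (x + s) : ℂ) * χ x := Finset.sum_comm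
      _ = ∑ s ∈ S, χ (-s) * F := by
          refine Finset.sum_congr rfl fun s _ => ?_
          rw [hF, Finset.mul_sum]
          rw [← Equiv.sum_comp (Equiv.subRight s) (fun x => (f (x + s) : ℂ) * χ x)]
          refine Finset.sum_congr rfl fun x _ => ?_
          simp only [Equiv.subRight_apply, sub_add_cancel]
          rw [sub_eq_add_neg, AddChar.map_add_eq_mul]
          ring
      _ = (∑ s ∈ S, χ (-s)) * F := by rw [Finset.sum_mul]
      _ = (∑ s ∈ S, χ s) * F := by
          congr 1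
          refine Finset.sum_bij' (fun s _ => -s) (fun s _ => -s) ?_ ?_ ?_ ?_ ?_
          · exact fun s hs => h.neg s hs
          · exact fun s hs => h.neg s hs
          · intro s _; simp
          · intro s _; simp
          · intro s _; rfl
  have key2 := mul_right_cancel₀ hχ key
  have hχ1 : χ ≠ 1 := by
    intro hχ1
    rw [hχ1] at key2
    simp only [AddChar.one_apply, Finset.sum_const, nsmul_eq_mul, mul_one] at key2
    have : (lam : ℂ) = 1 := by
      have h3 : (lam : ℂ) * S.card = 1 * S.card := by rw [key2, one_mul]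
      exact mul_right_cancel₀ hSc' h3
    apply h1
    exact_mod_cast this
  have h4 := h.char χ hχ1
  rw [← key2, norm_mul] at h4
  have h5 : ‖(S.card : ℂ)‖ = (S.card : ℝ) := by simp
  rw [h5, Complex.norm_real, Real.norm_eq_abs] at h4
  exact le_of_mul_le_mul_right h4 hSc

/-- sets closed under the steps -/
theorem Bad.closed {S : Finset G} {T : ℕ} (h : Bad S T) (C : Set G) (x : G) (hx : x ∈ C)
    (hC : ∀ y ∈ C, ∀ s ∈ S, y + s ∈ C) (z : G) : z ∈ C := by
  classical
  by_contra hz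
  let f : G → ℝ := fun y => if y ∈ C then 0 else 1
  have hf : ∀ y, 0 ≤ f y := fun y => by simp only [f]; split_ifs <;> norm_num
  have h1 : ∀ n, ∀ y ∈ C, (U S ^ n) f y = 0 := by
    intro n
    induction n with
    | zero => intro y hy; simp [f, hy]
    | succ n ih =>
      intro y hy
      rw [U_pow_succ_apply, U_apply, Finset.sum_eq_zero]
      · simp
      · intro s hs
        exact ih _ (hC y hy s hs)
  have h2 := h.upper (T + 1) (by omega) f hf x
  rw [h1 _ x hx] at h2
  have h3 : (1 : ℝ) ≤ ∑ y, f y := by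
    calc (1 : ℝ) = f z := by simp [f, hz]
      _ ≤ _ := Finset.single_le_sum (fun y _ => hf y) (Finset.mem_univ z)
  have hG : (0 : ℝ) < Fintype.card G := by exact_mod_cast Fintype.card_pos
  have h4 : 0 < (1 / 1000 : ℝ) * ((∑ y, f y) / Fintype.card G) := by positivity
  linarith

end bad

/-! ### matrices realising the lazy walk -/

section matrix

variable {G : Type*} [AddCommGroup G] [Fintype G] [DecidableEq G]

theorem mat_pow {P : Matrix G G ℝ} {W : Module.End ℝ (G → ℝ)}
    (hP : ∀ f : G → ℝ, P.mulVec f = W f) (t : ℕ) (f : G → ℝ) :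
    (P ^ t).mulVec f = (W ^ t) f := by
  induction t generalizing f with
  | zero => simp
  | succ t ih => rw [pow_succ, ← Matrix.mulVec_mulVec, hP, ih, pow_succ]; rfl

theorem mat_entry {P : Matrix G G ℝ} {W : Module.End ℝ (G → ℝ)}
    (hP : ∀ f : G → ℝ, P.mulVec f = W f) (t : ℕ) (x y : G) :
    (P ^ t) x y = (W ^ t) (Pi.single y 1) x := by
  rw [← mat_pow hP]
  simp

theorem mat_sum {P : Matrix G G ℝ} {W : Module.End ℝ (G → ℝ)}
    (hP : ∀ f : G → ℝ, P.mulVec f = W f) (t : ℕ) (x : G) (f : G → ℝ) :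
    ∑ y, (P ^ t) x y * f y = (W ^ t) f x := by
  rw [← mat_pow hP]; rfl

/-- a lower bound for the total variation distance to uniform -/
theorem tv_ge (p : G → ℝ) (hp : ∑ y, p y = 1) (E : Finset G)
    (hE : 8 * (E.card : ℝ) ≤ Fintype.card G)
    (hpE : (21 / 32 : ℝ) ≤ ∑ y, p y * (if y ∈ E then (1 : ℝ) else 0)) :
    (17 / 32 : ℝ) ≤ (1 / 2 : ℝ) * ∑ y, |p y - 1 / (Fintype.card G : ℝ)| := by
  have hG : (0 : ℝ) < Fintype.card G := by exact_mod_cast Fintype.card_pos
  have h1 : ∑ y, (p y - 1 / (Fintype.card G : ℝ)) = 0 := by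
    rw [Finset.sum_sub_distrib, hp]
    simp only [Finset.sum_const, Finset.card_univ, nsmul_eq_mul]
    field_simp
    norm_num
  set q : G → ℝ := fun y => p y - 1 / (Fintype.card G : ℝ) with hq
  have h2 : ∑ y, q y * (2 * (if y ∈ E then (1 : ℝ) else 0) - 1) ≤ ∑ y, |q y| := by
    apply Finset.sum_le_sum
    intro y _
    split_ifs
    · have := le_abs_self (q y); linarith
    · have := neg_abs_le (q y); linarith
  have h3 : ∑ y, q y * (2 * (if y ∈ E then (1 : ℝ) else 0) - 1) =
      2 * (∑ y, p y * (if y ∈ E then (1 : ℝ) else 0)) - 2 * (E.card / Fintype.card G) := by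
    have e1 : ∀ y, q y * (2 * (if y ∈ E then (1 : ℝ) else 0) - 1) =
        2 * (p y * (if y ∈ E then (1 : ℝ) else 0)) -
        (2 / (Fintype.card G : ℝ)) * (if y ∈ E then (1 : ℝ) else 0) - q y := by
      intro y
      simp only [hq]
      ring
    simp only [e1]
    rw [Finset.sum_sub_distrib, Finset.sum_sub_distrib, h1, ← Finset.mul_sum, ← Finset.mul_sum]
    simp
    ring
  have h4 : (E.card : ℝ) / Fintype.card G ≤ 1 / 8 := by
    rw [div_le_div_iff₀ hG (by norm_num)]
    linarith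
  change (17 / 32 : ℝ) ≤ (1 / 2 : ℝ) * ∑ y, |q y|
  linarith

/-- an upper bound for the total variation distance to uniform -/
theorem tv_le (p : G → ℝ) (hp : ∑ y, p y = 1) (c : ℝ)
    (hpc : ∀ y, c / (Fintype.card G : ℝ) ≤ p y) (hc1 : c ≤ 1) :
    (1 / 2 : ℝ) * ∑ y, |p y - 1 / (Fintype.card G : ℝ)| ≤ 1 - c := by
  have hG : (0 : ℝ) < Fintype.card G := by exact_mod_cast Fintype.card_pos
  have h1 : ∀ y, |p y - 1 / (Fintype.card G : ℝ)| ≤
      (p y - c / (Fintype.card G : ℝ)) + (1 - c) / (Fintype.card G : ℝ) := by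
    intro y
    have e1 : p y - 1 / (Fintype.card G : ℝ) =
      (p y - c / (Fintype.card G : ℝ)) - (1 - c) / (Fintype.card G : ℝ) := by ring
    rw [e1]
    refine (abs_sub _ _).trans ?_
    rw [abs_of_nonneg (by linarith [hpc y]),
      abs_of_nonneg (div_nonneg (by linarith) hG.le)]
  have h2 := Finset.sum_le_sum fun y (_ : y ∈ univ) => h1 y
  rw [Finset.sum_add_distrib, Finset.sum_sub_distrib, hp] at h2
  simp only [Finset.sum_const, Finset.card_univ, nsmul_eq_mul] at h2
  have e2 : (Fintype.card G : ℝ) * (c / Fintype.card G) = c := by field_simp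
  have e3 : (Fintype.card G : ℝ) * ((1 - c) / Fintype.card G) = 1 - c := by field_simp
  rw [e2, e3] at h2
  linarith

variable {P : Matrix G G ℝ} {S : Finset G} {T : ℕ}

theorem row_sum (h : Bad S T) (hP : ∀ f : G → ℝ, P.mulVec f = V S f) (t : ℕ) (x : G) :
    ∑ y, (P ^ t) x y = 1 := by
  have := mat_sum hP t x (fun _ => 1)
  rw [V_pow_const S h.nonempty] at this
  simpa using this

/-- (a) far from uniform up to time `T` -/
theorem fact_lower (h : Bad S T) (hP : ∀ f : G → ℝ, P.mulVec f = V S f) (t : ℕ) (ht : t ≤ T) :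
    (17 / 32 : ℝ) ≤ (1 / 2 : ℝ) * ∑ y, |(P ^ t) 0 y - 1 / (Fintype.card G : ℝ)| := by
  obtain ⟨E, hE, hl⟩ := h.lazy_lower
  refine tv_ge _ (row_sum h hP t 0) E hE ?_
  rw [mat_sum hP]
  exact hl t ht

/-- (b) minorisation -/
theorem fact_minor (h : Bad S T) (hP : ∀ f : G → ℝ, P.mulVec f = V S f) (m : ℕ)
    (hm : T ≤ 8 * (m + 1)) (x y : G) :
    (1 / 2000 : ℝ) / Fintype.card G ≤ (P ^ (2 * m + 1)) x y := by
  rw [mat_entry hP]
  have := h.lazy_upper m hm (Pi.single y 1) (fun z => by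
    rw [Pi.single_apply]; split_ifs <;> norm_num) x
  rw [Finset.sum_pi_single' y (1 : ℝ) univ] at this
  simp only [Finset.mem_univ, if_true] at this
  calc (1 / 2000 : ℝ) / Fintype.card G = (1 / 2000 : ℝ) * (1 / Fintype.card G) := by ring
    _ ≤ _ := this

theorem fact_upper (h : Bad S T) (hP : ∀ f : G → ℝ, P.mulVec f = V S f) (m : ℕ)
    (hm : T ≤ 8 * (m + 1)) (x : G) :
    (1 / 2 : ℝ) * ∑ y, |(P ^ (2 * m + 1)) x y - 1 / (Fintype.card G : ℝ)| ≤ 1 - 1 / 2000 :=
  tv_le _ (row_sum h hP _ x) _ (fun y => fact_minor h hP m hm x y) (by norm_num)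

/-- (c) convergence to uniform -/
theorem fact_conv (h : Bad S T) (hP : ∀ f : G → ℝ, P.mulVec f = V S f) (ε : ℝ) (hε : 0 < ε) :
    ∃ t : ℕ, ∀ x y, |(P ^ t) x y - 1 / (Fintype.card G : ℝ)| ≤ ε := by
  obtain ⟨k, hk⟩ := exists_pow_lt_of_lt_one hε (show (1 - 1 / 2000 : ℝ) < 1 by norm_num)
  refine ⟨(2 * T + 1) * k, fun x y => ?_⟩
  rw [mat_entry hP]
  have h1 := doeblin (V S ^ (2 * T + 1)) (1 / 2000)
    (fun a => V_pow_const S h.nonempty _ a) (fun f => sum_V_pow S h.nonempty _ f)
    (fun f hf x => h.lazy_upper T (by omega) f hf x) (Pi.single y 1) 0 1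
    (fun z => by rw [Pi.single_apply]; split_ifs <;> norm_num)
    (fun z => by rw [Pi.single_apply]; split_ifs <;> norm_num) k x
  rw [Finset.sum_pi_single' y (1 : ℝ) univ] at h1
  simp only [Finset.mem_univ, if_true, sub_zero, mul_one] at h1
  rw [pow_mul]
  exact h1.trans hk.le

/-- (d) the spectrum -/
theorem fact_spec (h : Bad S T) (hP : ∀ f : G → ℝ, P.mulVec f = V S f) (lam : ℝ)
    (hlam : lam ∈ spectrum ℝ P) (h1 : lam ≠ 1) : 1 / 8 ≤ lam ∧ lam ≤ 7 / 8 := by
  rw [← Matrix.spectrum_toLin', ← Module.End.hasEigenvalue_iff_mem_spectrum] at hlam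
  obtain ⟨f, hf⟩ := hlam.exists_hasEigenvector
  have hf0 := hf.2
  have hf1 := hf.apply_eq_smul
  rw [Matrix.toLin'_apply, hP] at hf1
  have h2 : ∀ x, U S f x = (2 * lam - 1) * f x := by
    intro x
    have := congrFun hf1 x
    rw [V_apply, Pi.smul_apply, smul_eq_mul] at this
    linarith
  have h3 := h.eigen f hf0 (2 * lam - 1) h2 (by intro h4; apply h1; linarith)
  rw [abs_le] at h3
  constructor <;> linarith

end matrix

end

end Pool.Agent.Helper394
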