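import Pool.Agent.Helper394.Base

open Finset

namespace Pool.Agent.Helper394

noncomputable section

/-- The properties of the step sets that destroy cutoff. -/
structure Bad {G : Type*} [AddCommGroup G] [Fintype G] [DecidableEq G] (S : Finset G)
    (T : ℕ) : Prop where
  zero : (0 : G) ∉ S
  neg : ∀ s ∈ S, -s ∈ S
  char : ∀ χ : AddChar G ℂ, χ ≠ 1 → ‖∑ s ∈ S, χ s‖ ≤ (3 / 4 : ℝ) * S.card
  lower : ∃ E : Finset G, 8 * (E.card : ℝ) ≤ Fintype.card G ∧
    ∀ j ≤ T, (21 / 32 : ℝ) ≤ (U S ^ j) (fun x => if x ∈ E then (1 : ℝ) else 0) 0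
  upper : ∀ n : ℕ, T ≤ 8 * n → ∀ f : G → ℝ, (∀ x, 0 ≤ f x) → ∀ x,
    (1 / 1000 : ℝ) * ((∑ y, f y) / Fintype.card G) ≤ (U S ^ n) f x

section
variable {L K : Type*} [AddCommGroup L] [AddCommGroup K] [Fintype L] [Fintype K]
  [DecidableEq L] [DecidableEq K]

theorem bad_blow (A : Finset L) (b : K) (T : ℕ) (hT : 64 ≤ T) (hA0 : (0 : L) ∉ A)
    (hAneg : ∀ s ∈ A, -s ∈ A) (hb : b ≠ 0) (hb2 : -b = b) (hK : 3 ≤ Fintype.card K)
    (hchar : ∀ χ : AddChar L ℂ, χ ≠ 1 → ‖∑ s ∈ A, χ s‖ ≤ (2 / 3 : ℝ) * A.card)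
    (E : Finset L) (hE : 8 * (E.card : ℝ) ≤ Fintype.card L)
    (hlow : ∀ n ≤ T, (7 / 8 : ℝ) ≤ (U A ^ n) (fun x => if x ∈ E then (1 : ℝ) else 0) 0)
    (hw_lo : 4 * (T : ℝ) * Fintype.card L ≤ A.card * ((Fintype.card K : ℝ) - 1))
    (hw_hi : A.card * ((Fintype.card K : ℝ) - 1) ≤ (8 * T + 1) * Fintype.card L) :
    Bad (blow A b) T := by
  have hT' : (64 : ℝ) ≤ T := by exact_mod_cast hT
  have hL : (0 : ℝ) < Fintype.card L := by exact_mod_cast Fintype.card_pos
  have hc := blow_card_pos A b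
  have hceq := card_blow_real A b
  have hKr : (3 : ℝ) ≤ Fintype.card K := by exact_mod_cast hK
  have hw2hi : w2 A b ≤ 1 / (4 * T) := by
    rw [w2, div_le_div_iff₀ hc (by positivity), hceq]
    nlinarith
  have hw2lo : 1 / (9 * (T : ℝ)) ≤ w2 A b := by
    rw [w2, div_le_div_iff₀ (by positivity) hc, hceq]
    nlinarith
  have hw := w1_add_w2 A b
  have hw1n := w1_nonneg A b
  refine ⟨?_, ?_, ?_, ?_, ?_⟩
  · -- zero
    rw [blow, Finset.mem_union, Finset.mem_product, Finset.mem_product]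
    simp only [Prod.fst_zero, Prod.snd_zero, Finset.mem_singleton]
    rintro (⟨h, _⟩ | ⟨_, h⟩)
    · exact hA0 h
    · exact hb h.symm
  · -- neg
    intro s hs
    rw [blow, Finset.mem_union, Finset.mem_product, Finset.mem_product] at hs ⊢
    rcases hs with ⟨h1, h2⟩ | ⟨h1, h2⟩
    · left
      refine ⟨hAneg _ h1, ?_⟩
      rw [Finset.mem_erase] at h2 ⊢
      refine ⟨?_, Finset.mem_univ _⟩
      intro h3
      apply h2.1
      have : -(-s.2) = -b := by
        have h4 : -s.2 = b := h3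
        rw [h4]
      rw [neg_neg, hb2] at this
      exact this
    · right
      refine ⟨Finset.mem_univ _, ?_⟩
      rw [Finset.mem_singleton] at h2 ⊢
      rw [Prod.snd_neg, h2, hb2]
  · -- char
    intro χ hχ
    rw [sum_blow]
    let χ1 : AddChar L ℂ := χ.compAddMonoidHom (AddMonoidHom.inl L K)
    let χ2 : AddChar K ℂ := χ.compAddMonoidHom (AddMonoidHom.inr L K)
    have hsplit : ∀ l k, χ (l, k) = χ1 l * χ2 k := by
      intro l k
      have : ((l, k) : L × K) = (l, 0) + (0, k) := by simp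
      rw [this, AddChar.map_add_eq_mul]
      rfl
    have e1 : (∑ a ∈ A, ∑ u ∈ (univ : Finset K).erase b, χ (a, u)) =
        (∑ a ∈ A, χ1 a) * ∑ u ∈ (univ : Finset K).erase b, χ2 u := by
      rw [Finset.sum_mul_sum]
      refine Finset.sum_congr rfl fun a _ => Finset.sum_congr rfl fun u _ => hsplit a u
    have e2 : ∑ l, χ (l, b) = (∑ l, χ1 l) * χ2 b := by
      rw [Finset.sum_mul]
      exact Finset.sum_congr rfl fun l _ => hsplit l b
    rw [e1, e2, AddChar.sum_eq_ite]
    have hAcard : (0 : ℝ) ≤ A.card := by positivity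
    by_cases h1 : χ1 = 0
    · -- trivial on L
      have h2 : χ2 ≠ 0 := by
        intro h2
        apply hχ
        ext ⟨l, k⟩
        rw [hsplit, h1, h2]
        simp
      rw [if_pos h1, Finset.sum_erase_eq_sub (Finset.mem_univ _), AddChar.sum_eq_ite,
        if_neg h2]
      have e3 : (∑ a ∈ A, χ1 a) = (A.card : ℂ) := by rw [h1]; simp
      rw [e3]
      have e4 : (A.card : ℂ) * (0 - χ2 b) + (Fintype.card L : ℂ) * χ2 b =
          (((Fintype.card L : ℝ) - A.card : ℝ) : ℂ) * χ2 b := by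
        push_cast; ring
      rw [e4, norm_mul, norm_char_le, mul_one, Complex.norm_real, Real.norm_eq_abs]
      have hAL : (A.card : ℝ) ≤ Fintype.card L := by exact_mod_cast Finset.card_le_univ A
      rw [abs_of_nonneg (by linarith)]
      have h5 : (Fintype.card L : ℝ) = w2 A b * (blow A b).card := by
        rw [w2]; field_simp
      have h6 : w2 A b ≤ 3 / 4 := by
        refine hw2hi.trans ?_
        rw [div_le_iff₀ (by positivity)]
        linarith
      nlinarith
    · rw [if_neg h1, zero_mul, add_zero, norm_mul]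
      have h2 : ‖∑ u ∈ (univ : Finset K).erase b, χ2 u‖ ≤ (Fintype.card K : ℝ) - 1 := by
        refine (norm_char_sum_le _ _).trans ?_
        rw [Finset.card_erase_of_mem (Finset.mem_univ _), Finset.card_univ]
        push_cast [Nat.cast_sub (show 1 ≤ Fintype.card K by omega)]
        linarith
      calc ‖∑ a ∈ A, χ1 a‖ * ‖∑ u ∈ (univ : Finset K).erase b, χ2 u‖
          ≤ ((2 / 3 : ℝ) * A.card) * ((Fintype.card K : ℝ) - 1) :=
            mul_le_mul (hchar χ1 h1) h2 (norm_nonneg _) (by positivity)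
        _ ≤ (3 / 4 : ℝ) * (blow A b).card := by
            rw [hceq]
            have : 0 ≤ (A.card : ℝ) * ((Fintype.card K : ℝ) - 1) :=
              mul_nonneg hAcard (by linarith)
            nlinarith
  · -- lower
    refine ⟨E ×ˢ univ, ?_, ?_⟩
    · rw [Finset.card_product, Fintype.card_prod, Finset.card_univ]
      push_cast
      nlinarith
    · intro j hj
      have e1 : (fun x : L × K => if x ∈ E ×ˢ (univ : Finset K) then (1 : ℝ) else 0) =
          fun x => (fun l => if l ∈ E then (1 : ℝ) else 0) x.1 := by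
        ext x
        simp
      rw [e1]
      have h1 := U_blow_fst_ge A b (fun l => if l ∈ E then (1 : ℝ) else 0)
        (fun l => by split_ifs <;> norm_num) j (0 : L × K)
      refine le_trans ?_ h1
      have h2 := hlow j hj
      have h3 : (3 / 4 : ℝ) ≤ w1 A b ^ j := by
        have h4 : w1 A b = 1 + (-(w2 A b)) := by linarith
        rw [h4]
        have hw2p := w2_pos A b
        have h5 : (1 : ℝ) + j * (-(w2 A b)) ≤ (1 + (-(w2 A b))) ^ j := by
          apply one_add_mul_le_pow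
          linarith
        refine le_trans ?_ h5
        have h6 : (j : ℝ) ≤ T := by exact_mod_cast hj
        have h7 : (j : ℝ) * w2 A b ≤ 1 / 4 := by
          calc (j : ℝ) * w2 A b ≤ T * (1 / (4 * T)) := by
                apply mul_le_mul h6 hw2hi hw2p.le (by positivity)
            _ = 1 / 4 := by field_simp
        linarith
      have h8 : (U A ^ j) (fun l => if l ∈ E then (1 : ℝ) else 0) (0 : L × K).1 =
        (U A ^ j) (fun l => if l ∈ E then (1 : ℝ) else 0) 0 := rfl
      rw [h8]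
      nlinarith
  · -- upper
    intro n hn f hf x
    set mn : ℝ := (∑ y, f y) / Fintype.card (L × K) with hmn
    have hmn0 : 0 ≤ mn := by
      apply div_nonneg (Finset.sum_nonneg fun _ _ => hf _) (by positivity)
    have hn2 : 2 ≤ n := by omega
    obtain ⟨k, rfl⟩ := Nat.exists_eq_add_of_le hn2
    have e1 : (U (blow A b) ^ (2 + k)) f = (U (blow A b) ^ k) ((U (blow A b) ^ 2) f) := by
      rw [add_comm, pow_add]; rfl
    rw [e1]
    have h1 : ∀ κ : K, (w1 A b ^ 2 / 2 * mn) * Fintype.card L ≤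
        ∑ l, ((U (blow A b) ^ 2) f) (l, κ) := fun κ => fibre_two_steps A b f hf κ hK
    have h2 := U_blow_ge A b ((U (blow A b) ^ 2) f) (U_pow_nonneg _ _ hf) _ h1 k x
    refine le_trans ?_ h2
    have hw1lo : (9 / 10 : ℝ) ≤ w1 A b := by
      have : w2 A b ≤ 1 / 10 := by
        refine hw2hi.trans ?_
        rw [div_le_div_iff₀ (by positivity) (by norm_num)]
        linarith
      linarith
    have h3 : (4 / 10 : ℝ) ≤ w1 A b ^ 2 / 2 := by nlinarith
    have h4 : (1 / 200 : ℝ) ≤ 1 - w1 A b ^ k := by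
      have h5 : w1 A b = 1 - w2 A b := by linarith
      rw [h5]
      have hw2p := w2_pos A b
      have h6 := bern_inv (w2 A b) hw2p.le (by linarith) k
      have h7 : (1 / 150 : ℝ) ≤ k * w2 A b := by
        have h8 : (T : ℝ) ≤ 8 * ((2 : ℕ) + k : ℕ) := by exact_mod_cast hn
        push_cast at h8
        have h9 : (T : ℝ) / 16 ≤ k := by linarith
        calc (1 / 150 : ℝ) ≤ (T / 16) * (1 / (9 * T)) := by
              field_simp; norm_num
          _ ≤ k * w2 A b := by
              apply mul_le_mul h9 hw2lo (by positivity) (by positivity)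
      have h10 : 1 / (1 + k * w2 A b) ≤ 1 / (1 + 1 / 150) := by
        apply one_div_le_one_div_of_le (by norm_num)
        linarith
      have h11 : (1 : ℝ) / (1 + 1 / 150) ≤ 1 - 1 / 200 := by norm_num
      linarith
    have h12 : (1 / 1000 : ℝ) ≤ (1 - w1 A b ^ k) * (w1 A b ^ 2 / 2) := by nlinarith
    calc (1 / 1000 : ℝ) * mn ≤ ((1 - w1 A b ^ k) * (w1 A b ^ 2 / 2)) * mn := by
          apply mul_le_mul_of_nonneg_right h12 hmn0
      _ = _ := by ring

end

/-- transport along an isomorphism -/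
theorem U_pow_map {G G' : Type*} [AddCommGroup G] [AddCommGroup G'] (e : G ≃+ G')
    (S : Finset G) (n : ℕ) (f : G' → ℝ) (x : G) :
    (U (S.map e.toEquiv.toEmbedding) ^ n) f (e x) = (U S ^ n) (fun y => f (e y)) x := by
  induction n generalizing x with
  | zero => simp
  | succ n ih =>
    rw [U_pow_succ_apply, U_pow_succ_apply, U_apply, U_apply, Finset.sum_map, Finset.card_map]
    congr 1
    refine Finset.sum_congr rfl fun s _ => ?_
    rw [← ih (x + s)]
    congr 1
    simp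

theorem Bad.map {G G' : Type*} [AddCommGroup G] [AddCommGroup G'] [Fintype G] [Fintype G']
    [DecidableEq G] [DecidableEq G'] (e : G ≃+ G') {S : Finset G} {T : ℕ} (h : Bad S T) :
    Bad (S.map e.toEquiv.toEmbedding) T := by
  have hcard : Fintype.card G' = Fintype.card G := (Fintype.card_congr e.toEquiv).symm
  refine ⟨?_, ?_, ?_, ?_, ?_⟩
  · intro h0
    rw [Finset.mem_map] at h0
    obtain ⟨s, hs, hs0⟩ := h0
    have : s = 0 := by
      apply e.injective
      rw [map_zero]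
      exact hs0
    rw [this] at hs
    exact h.zero hs
  · intro s hs
    rw [Finset.mem_map] at hs ⊢
    obtain ⟨t, ht, rfl⟩ := hs
    exact ⟨-t, h.neg t ht, by simp⟩
  · intro χ hχ
    rw [Finset.sum_map, Finset.card_map]
    have := h.char (χ.compAddMonoidHom e.toAddMonoidHom) (by
      intro hcon
      apply hχ
      ext y
      have h1 : (χ.compAddMonoidHom e.toAddMonoidHom) (e.symm y) = 1 := by rw [hcon]; simp
      rw [AddChar.compAddMonoidHom_apply] at h1
      simpa using h1)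
    exact this
  · obtain ⟨E, hE, hlow⟩ := h.lower
    refine ⟨E.map e.toEquiv.toEmbedding, ?_, ?_⟩
    · rw [Finset.card_map, hcard]; exact hE
    · intro j hj
      have h1 := U_pow_map e S j
        (fun x => if x ∈ E.map e.toEquiv.toEmbedding then (1 : ℝ) else 0) 0
      rw [map_zero] at h1
      rw [h1]
      have h2 : (fun y => if e y ∈ E.map e.toEquiv.toEmbedding then (1 : ℝ) else 0) =
          fun y => if y ∈ E then (1 : ℝ) else 0 := by
        ext y
        congr 1
        rw [Finset.mem_map]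
        apply propext
        constructor
        · rintro ⟨z, hz, hzy⟩
          have : z = y := e.injective hzy
          rwa [← this]
        · intro hy
          exact ⟨y, hy, rfl⟩
      rw [h2]
      exact hlow j hj
  · intro n hn f hf x
    obtain ⟨y, rfl⟩ := e.surjective x
    rw [U_pow_map]
    have h1 := h.upper n hn (fun y => f (e y)) (fun _ => hf _) y
    have h2 : ∑ y, f (e y) = ∑ y, f y := Equiv.sum_comp e.toEquiv f
    rw [h2] at h1
    rw [hcard]
    exact h1

/-- a sequence of even numbers with rapidly growing divisibility -/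
def cs (c0 : ℕ) : ℕ → ℕ
  | 0 => c0
  | n + 1 => cs c0 n * (cs c0 n - 1) * (cs c0 n + 1)

theorem cs_dvd (c0 : ℕ) {i j : ℕ} (hij : i < j) :
    cs c0 i * (cs c0 i - 1) * (cs c0 i + 1) ∣ cs c0 j := by
  induction j with
  | zero => omega
  | succ j ih =>
    rcases Nat.lt_succ_iff_lt_or_eq.mp hij with h | h
    · exact (ih h).trans ⟨(cs c0 j - 1) * (cs c0 j + 1), by rw [cs, mul_assoc]⟩
    · subst h
      exact dvd_refl _

theorem cs_ge (c0 : ℕ) (h : 2 ≤ c0) (i : ℕ) : c0 ≤ cs c0 i := by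
  induction i with
  | zero => exact le_refl _
  | succ i ih =>
    rw [cs]
    have h1 : 1 ≤ cs c0 i - 1 := by omega
    calc c0 ≤ cs c0 i := ih
      _ = cs c0 i * 1 * 1 := by ring
      _ ≤ cs c0 i * (cs c0 i - 1) * (cs c0 i + 1) := by gcongr; omega

theorem cs_even (c0 : ℕ) (h : 2 ∣ c0) (i : ℕ) : 2 ∣ cs c0 i := by
  induction i with
  | zero => exact h
  | succ i ih =>
    rw [cs, mul_assoc]
    exact ih.mul_right _

theorem cop_pred (c : ℕ) (hc : 1 ≤ c) : Nat.Coprime (c - 1) c := by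
  obtain ⟨k, rfl⟩ := Nat.exists_eq_add_of_le hc
  have : 1 + k - 1 = k := by omega
  rw [this, add_comm]
  simp

theorem cop_succ (c : ℕ) : Nat.Coprime (c + 1) c := by simp

theorem cop_pq (c : ℕ) (hc : 2 ≤ c) (h : 2 ∣ c) : Nat.Coprime (c - 1) (c + 1) := by
  obtain ⟨k, rfl⟩ := h
  have e1 : 2 * k + 1 = (2 * k - 1) + 2 := by omega
  rw [e1]
  rw [Nat.coprime_self_add_right]
  have e2 : 2 * k - 1 = 2 * (k - 1) + 1 := by omega
  rw [e2]
  simp

theorem cop_pair (c0 : ℕ) (h2 : 2 ≤ c0) {i j : ℕ} (hij : i < j) :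
    Nat.Coprime ((cs c0 i - 1) * (cs c0 i + 1)) ((cs c0 j - 1) * (cs c0 j + 1)) := by
  have hd : (cs c0 i - 1) * (cs c0 i + 1) ∣ cs c0 j := by
    refine Dvd.dvd.trans ?_ (cs_dvd c0 hij)
    rw [mul_assoc]
    exact Dvd.intro_left _ rfl
  have hj := cs_ge c0 h2 j
  have h1 : Nat.Coprime (cs c0 j) ((cs c0 j - 1) * (cs c0 j + 1)) :=
    Nat.Coprime.mul_right (cop_pred _ (by omega)).symm (cop_succ _).symm
  exact Nat.Coprime.coprime_dvd_left hd h1

section
variable {ι : Type*} [Fintype ι] [DecidableEq ι]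
variable {X Y : ι → Type*} [∀ i, AddCommGroup (X i)] [∀ i, AddCommGroup (Y i)]
  [∀ i, Fintype (X i)] [∀ i, Fintype (Y i)] [∀ i, DecidableEq (X i)] [∀ i, DecidableEq (Y i)]

theorem exists_pow_bad [Nonempty ι] (T : ℕ) (hT : 64 ≤ T)
    (hXY : ∀ i, Fintype.card (X i) < 2 * Fintype.card (Y i))
    (hYX : ∀ i, Fintype.card (Y i) ≤ 2 * Fintype.card (X i))
    (hX : ∀ i, 8 * Fintype.card ι ≤ Fintype.card (X i))
    (hι : 7 * 3 ^ T ≤ Fintype.card ι) :
    ∃ (m : ℕ) (_ : NeZero (2 ^ m : ℕ)) (b : ZMod (2 ^ m)), T ≤ 2 ^ m ∧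
      Bad (blow (baseA X Y) b) T := by
  classical
  have hιpos : 1 ≤ Fintype.card ι := Fintype.card_pos
  have h3 : ∀ i, 3 ≤ Fintype.card (X i) := fun i => by have := hX i; omega
  let A : Finset (∀ i, X i × Y i) := baseA X Y
  let E : Finset (∀ i, X i × Y i) := baseE X Y
  have hA0 : (0 : ∀ i, X i × Y i) ∉ A := by
    intro h
    rw [show A = Fintype.piFinset fun i => cross (X i) (Y i) from rfl,
      Fintype.mem_piFinset] at h
    exact zero_notMem_cross (h (Classical.arbitrary ι))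
  have hAneg : ∀ s ∈ A, -s ∈ A := by
    intro s hs
    rw [show A = Fintype.piFinset fun i => cross (X i) (Y i) from rfl,
      Fintype.mem_piFinset] at hs ⊢
    exact fun i => neg_mem_cross _ (hs i)
  have hchar : ∀ χ : AddChar (∀ i, X i × Y i) ℂ, χ ≠ 1 →
      ‖∑ s ∈ A, χ s‖ ≤ (2 / 3 : ℝ) * A.card := by
    intro χ hχ
    apply char_prod_bound _ _ _ χ hχ
    intro i ψ hψ
    exact cross_char (hXY i).le (hYX i) (h3 i) ψ hψ
  have hE : 8 * (E.card : ℝ) ≤ Fintype.card (∀ i, X i × Y i) := base_card hX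
  have hlow : ∀ n ≤ T, (7 / 8 : ℝ) ≤
      (U A ^ n) (fun x => if x ∈ E then (1 : ℝ) else 0) 0 := by
    intro n hn
    exact base_lower hXY h3 n T hn hι
  -- choice of the power of two
  have hL : (0 : ℝ) < Fintype.card (∀ i, X i × Y i) := by exact_mod_cast Fintype.card_pos
  have hAcard : (0 : ℝ) < A.card := by
    by_contra hcon
    have h0 : A.card = 0 := by
      have : (A.card : ℝ) = 0 := le_antisymm (not_lt.mp hcon) (by positivity)
      exact_mod_cast this
    rw [Finset.card_eq_zero] at h0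
    have h1 := hlow 1 (by omega)
    rw [h0, pow_one, U_apply] at h1
    simp at h1
    linarith
  have hAL : (A.card : ℝ) ≤ Fintype.card (∀ i, X i × Y i) := by
    exact_mod_cast Finset.card_le_univ A
  have hT' : (64 : ℝ) ≤ T := by exact_mod_cast hT
  have hex : ∃ m : ℕ, 4 * (T : ℝ) * Fintype.card (∀ i, X i × Y i) ≤
      A.card * ((2 : ℝ) ^ m - 1) := by
    obtain ⟨m, hm⟩ := pow_unbounded_of_one_lt
      (4 * (T : ℝ) * Fintype.card (∀ i, X i × Y i) / A.card + 1)
      (one_lt_two : (1 : ℝ) < 2)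
    refine ⟨m, ?_⟩
    have h1 : 4 * (T : ℝ) * Fintype.card (∀ i, X i × Y i) / A.card ≤ (2 : ℝ) ^ m - 1 := by
      linarith
    rw [div_le_iff₀ hAcard] at h1
    linarith
  set m := Nat.find hex with hm
  have hm1 := Nat.find_spec hex
  rw [← hm] at hm1
  have hm0 : 1 ≤ m := by
    by_contra hcon
    have : m = 0 := by omega
    rw [this, pow_zero, sub_self, mul_zero] at hm1
    nlinarith
  have hm2 : A.card * ((2 : ℝ) ^ (m - 1) - 1) <
      4 * (T : ℝ) * Fintype.card (∀ i, X i × Y i) := by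
    have := Nat.find_min hex (m := m - 1) (by omega)
    push Not at this
    exact this
  have hpow : (2 : ℝ) ^ m = 2 * 2 ^ (m - 1) := by
    rw [← pow_succ']; congr 1; omega
  have hm3 : (4 : ℝ) ≤ (2 : ℝ) ^ m := by
    by_contra hcon
    push Not at hcon
    nlinarith
  have hm4 : 2 ≤ m := by
    by_contra hcon
    have : m = 1 := by omega
    rw [this] at hm3
    norm_num at hm3
  have iK : NeZero (2 ^ m : ℕ) := ⟨by positivity⟩
  have cK : Fintype.card (ZMod (2 ^ m)) = 2 ^ m := ZMod.card _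
  let b : ZMod (2 ^ m) := ((2 ^ (m - 1) : ℕ) : ZMod (2 ^ m))
  have hpowN : (2 : ℕ) ^ m = 2 ^ (m - 1) + 2 ^ (m - 1) := by
    rw [← two_mul, ← pow_succ']; congr 1; omega
  have hb : b ≠ 0 := by
    intro h
    rw [ZMod.natCast_eq_zero_iff] at h
    have := Nat.le_of_dvd (by positivity) h
    have h3 : 0 < 2 ^ (m - 1) := by positivity
    omega
  have hb2 : -b = b := by
    rw [neg_eq_iff_add_eq_zero]
    have : b + b = ((2 ^ (m - 1) + 2 ^ (m - 1) : ℕ) : ZMod (2 ^ m)) := by
      rw [Nat.cast_add]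
    rw [this, ZMod.natCast_eq_zero_iff, hpowN]
  have hbad : Bad (blow A b) T := by
    apply bad_blow A b T hT hA0 hAneg hb hb2 _ hchar E hE hlow
    · rw [cK]; push_cast; linarith
    · rw [cK]; push_cast
      rw [hpow]
      nlinarith
    · rw [cK]
      calc 3 ≤ 2 ^ 2 := by norm_num
        _ ≤ 2 ^ m := Nat.pow_le_pow_right (by norm_num) hm4
  refine ⟨m, iK, b, ?_, hbad⟩
  have h5 : (T : ℝ) ≤ 2 ^ m := by nlinarith
  exact_mod_cast h5

end

theorem exists_bad (T : ℕ) (hT : 64 ≤ T) :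
    ∃ (N : ℕ) (_ : NeZero N) (S : Finset (ZMod N)), T ≤ N ∧ Bad S T := by
  classical
  set r : ℕ := 7 * 3 ^ T with hr
  have hr1 : 1 ≤ r := by
    have : 1 ≤ 3 ^ T := Nat.one_le_pow _ _ (by norm_num)
    omega
  set c0 : ℕ := 2 * (4 * r + 1) with hc0
  let c : Fin r → ℕ := fun i => cs c0 i
  have hcge : ∀ i, c0 ≤ c i := fun i => cs_ge c0 (by omega) i
  have hc2 : ∀ i, 2 ∣ c i := fun i => cs_even c0 ⟨_, rfl⟩ i
  have hp : ∀ i, NeZero (c i - 1) := fun i => ⟨by have := hcge i; omega⟩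
  have hq : ∀ i, NeZero (c i + 1) := fun i => ⟨by omega⟩
  have hpq : ∀ i, NeZero ((c i - 1) * (c i + 1)) := fun i =>
    ⟨mul_ne_zero (hp i).out (hq i).out⟩
  have hne : Nonempty (Fin r) := ⟨⟨0, by omega⟩⟩
  have cX : ∀ i, Fintype.card (ZMod (c i - 1)) = c i - 1 := fun i => ZMod.card _
  have cY : ∀ i, Fintype.card (ZMod (c i + 1)) = c i + 1 := fun i => ZMod.card _
  obtain ⟨m, hm, b, hTm, hbad⟩ := exists_pow_bad (ι := Fin r)
    (X := fun i => ZMod (c i - 1)) (Y := fun i => ZMod (c i + 1)) T hT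
    (fun i => by rw [cX, cY]; omega)
    (fun i => by have := hcge i; rw [cX, cY]; omega)
    (fun i => by have := hcge i; rw [cX, Fintype.card_fin]; omega)
    (by rw [Fintype.card_fin])
  -- Chinese remainder theorem
  have hcop : Pairwise (Function.onFun Nat.Coprime fun i : Fin r => (c i - 1) * (c i + 1)) := by
    intro i j hij
    rcases lt_or_gt_of_ne hij with h | h
    · exact cop_pair c0 (by omega) (by exact_mod_cast h)
    · exact (cop_pair c0 (by omega) (by exact_mod_cast h)).symm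
  let M : ℕ := ∏ i, ((c i - 1) * (c i + 1))
  let e1 : ZMod M ≃+* ∀ i, ZMod ((c i - 1) * (c i + 1)) := ZMod.prodEquivPi _ hcop
  let e2 : (∀ i, ZMod ((c i - 1) * (c i + 1))) ≃+* ∀ i, ZMod (c i - 1) × ZMod (c i + 1) :=
    RingEquiv.piCongrRight fun i => ZMod.chineseRemainder
      (cop_pq (c i) (by have := hcge i; omega) (hc2 i))
  have hcopM : Nat.Coprime M (2 ^ m) := by
    apply Nat.Coprime.pow_right
    apply Nat.Coprime.prod_left
    intro i _
    apply Nat.Coprime.mul_left
    · exact Nat.Coprime.coprime_dvd_right (hc2 i) (cop_pred _ (by have := hcge i; omega))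
    · exact Nat.Coprime.coprime_dvd_right (hc2 i) (cop_succ _)
  let e3 : ZMod (M * 2 ^ m) ≃+* ZMod M × ZMod (2 ^ m) := ZMod.chineseRemainder hcopM
  let e4 : ZMod (M * 2 ^ m) ≃+* (∀ i, ZMod (c i - 1) × ZMod (c i + 1)) × ZMod (2 ^ m) :=
    e3.trans ((e1.trans e2).prodCongr (RingEquiv.refl _))
  let e5 : ((∀ i, ZMod (c i - 1) × ZMod (c i + 1)) × ZMod (2 ^ m)) ≃+ ZMod (M * 2 ^ m) :=
    e4.symm.toAddEquiv
  have hM : M ≠ 0 := Finset.prod_ne_zero_iff.mpr fun i _ => (hpq i).out
  have hN : NeZero (M * 2 ^ m) := ⟨mul_ne_zero hM (by positivity)⟩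
  refine ⟨M * 2 ^ m, hN, _, ?_, hbad.map e5⟩
  calc T ≤ 2 ^ m := hTm
    _ = 1 * 2 ^ m := by ring
    _ ≤ M * 2 ^ m := by
      apply Nat.mul_le_mul_right
      omega

end

end Pool.Agent.Helper394
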