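import Mathlib

open Finset

namespace Pool.Agent.Helper394

noncomputable section

variable {G : Type*} [AddCommGroup G]

/-- averaging operator over a finite set of steps -/
def U (S : Finset G) : Module.End ℝ (G → ℝ) where
  toFun f := fun x => (∑ s ∈ S, f (x + s)) / (S.card : ℝ)
  map_add' f g := by ext x; simp [Finset.sum_add_distrib, add_div]
  map_smul' c f := by
    ext x
    simp only [Pi.smul_apply, smul_eq_mul, RingHom.id_apply]
    rw [← Finset.mul_sum, mul_div_assoc]

theorem U_apply (S : Finset G) (f : G → ℝ) (x : G) :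
    U S f x = (∑ s ∈ S, f (x + s)) / (S.card : ℝ) := rfl

theorem U_mono (S : Finset G) {f g : G → ℝ} (h : ∀ x, f x ≤ g x) (x : G) :
    U S f x ≤ U S g x := by
  rw [U_apply, U_apply]
  gcongr
  exact h _

theorem U_pow_succ_apply (S : Finset G) (n : ℕ) (f : G → ℝ) :
    (U S ^ (n + 1)) f = U S ((U S ^ n) f) := by
  rw [pow_succ']; rfl

theorem U_pow_succ_apply' (S : Finset G) (n : ℕ) (f : G → ℝ) :
    (U S ^ (n + 1)) f = (U S ^ n) (U S f) := by
  rw [pow_succ]; rfl

theorem U_pow_mono (S : Finset G) (n : ℕ) {f g : G → ℝ} (h : ∀ x, f x ≤ g x) (x : G) :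
    (U S ^ n) f x ≤ (U S ^ n) g x := by
  induction n generalizing x with
  | zero => simpa using h x
  | succ n ih =>
    rw [U_pow_succ_apply, U_pow_succ_apply]
    exact U_mono S ih x

theorem U_nonneg (S : Finset G) {f : G → ℝ} (h : ∀ x, 0 ≤ f x) (x : G) :
    0 ≤ U S f x := by
  rw [U_apply]
  exact div_nonneg (Finset.sum_nonneg fun s _ => h _) (by positivity)

theorem U_pow_nonneg (S : Finset G) (n : ℕ) {f : G → ℝ} (h : ∀ x, 0 ≤ f x) (x : G) :
    0 ≤ (U S ^ n) f x := by
  induction n generalizing x with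
  | zero => simpa using h x
  | succ n ih =>
    rw [U_pow_succ_apply]
    exact U_nonneg S ih x

theorem U_const (S : Finset G) (hS : S.Nonempty) (c : ℝ) :
    U S (fun _ => c) = fun _ => c := by
  ext x
  rw [U_apply]
  simp only [Finset.sum_const, nsmul_eq_mul]
  have : (0 : ℝ) < S.card := by exact_mod_cast hS.card_pos
  field_simp

theorem U_pow_const (S : Finset G) (hS : S.Nonempty) (n : ℕ) (c : ℝ) :
    (U S ^ n) (fun _ => c) = fun _ => c := by
  induction n with
  | zero => simp
  | succ n ih => rw [U_pow_succ_apply, ih, U_const S hS]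

theorem sum_U [Fintype G] (S : Finset G) (hS : S.Nonempty) (f : G → ℝ) :
    ∑ x, U S f x = ∑ x, f x := by
  simp only [U_apply]
  rw [← Finset.sum_div, Finset.sum_comm]
  have : ∀ s ∈ S, ∑ x, f (x + s) = ∑ x, f x := by
    intro s _
    exact Equiv.sum_comp (Equiv.addRight s) f
  rw [Finset.sum_congr rfl this]
  simp only [Finset.sum_const, nsmul_eq_mul]
  have : (0 : ℝ) < S.card := by exact_mod_cast hS.card_pos
  field_simp

theorem sum_U_pow [Fintype G] (S : Finset G) (hS : S.Nonempty) (n : ℕ) (f : G → ℝ) :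
    ∑ x, (U S ^ n) f x = ∑ x, f x := by
  induction n with
  | zero => simp
  | succ n ih => rw [U_pow_succ_apply, sum_U S hS, ih]

/-! ### The blow-up of a walk on `L` to a walk on `L × K` -/

section blow

variable {L K : Type*} [AddCommGroup L] [AddCommGroup K] [Fintype L] [Fintype K]
  [DecidableEq L] [DecidableEq K]

/-- the step set of the blown-up walk -/
def blow (A : Finset L) (b : K) : Finset (L × K) :=
  (A ×ˢ (univ.erase b)) ∪ (univ ×ˢ {b})

theorem blow_disj (A : Finset L) (b : K) :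
    Disjoint (A ×ˢ ((univ : Finset K).erase b)) ((univ : Finset L) ×ˢ ({b} : Finset K)) := by
  rw [Finset.disjoint_left]
  rintro ⟨l, k⟩ h1 h2
  simp at h1 h2
  exact h1.2 h2.symm

theorem sum_blow {M : Type*} [AddCommMonoid M] (A : Finset L) (b : K) (f : L × K → M) :
    ∑ s ∈ blow A b, f s =
      (∑ a ∈ A, ∑ u ∈ (univ : Finset K).erase b, f (a, u)) + ∑ l, f (l, b) := by
  rw [blow, Finset.sum_union (blow_disj A b), Finset.sum_product, Finset.sum_product]
  simp

theorem card_blow (A : Finset L) (b : K) :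
    (blow A b).card = A.card * (Fintype.card K - 1) + Fintype.card L := by
  rw [blow, Finset.card_union_of_disjoint (blow_disj A b), Finset.card_product,
    Finset.card_product]
  simp [Finset.card_erase_of_mem]

theorem card_blow_real (A : Finset L) (b : K) :
    ((blow A b).card : ℝ) = A.card * ((Fintype.card K : ℝ) - 1) + Fintype.card L := by
  rw [card_blow]
  have : 1 ≤ Fintype.card K := Fintype.card_pos_iff.mpr ⟨b⟩
  push_cast [Nat.cast_sub this]
  ring

theorem blow_nonempty (A : Finset L) (b : K) : (blow A b).Nonempty :=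
  ⟨(0, b), by simp [blow]⟩

/-- weight of the slow part -/
def w1 (A : Finset L) (b : K) : ℝ :=
  (A.card : ℝ) * ((Fintype.card K : ℝ) - 1) / (blow A b).card

/-- weight of the refresh part -/
def w2 (A : Finset L) (b : K) : ℝ :=
  (Fintype.card L : ℝ) / (blow A b).card

theorem blow_card_pos (A : Finset L) (b : K) : (0 : ℝ) < (blow A b).card := by
  exact_mod_cast (blow_nonempty A b).card_pos

theorem w1_add_w2 (A : Finset L) (b : K) : w1 A b + w2 A b = 1 := by
  have h := blow_card_pos A b
  rw [w1, w2, ← add_div, ← card_blow_real A b, div_self h.ne']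

theorem w2_pos (A : Finset L) (b : K) : 0 < w2 A b := by
  have h := blow_card_pos A b
  have : (0 : ℝ) < Fintype.card L := by exact_mod_cast Fintype.card_pos
  rw [w2]; positivity

theorem w1_nonneg (A : Finset L) (b : K) : 0 ≤ w1 A b := by
  have h := blow_card_pos A b
  have h1 : (1 : ℝ) ≤ Fintype.card K := by
    exact_mod_cast Fintype.card_pos_iff.mpr ⟨b⟩
  rw [w1]
  have : (0 : ℝ) ≤ (Fintype.card K : ℝ) - 1 := by linarith
  positivity

/-- lower bound on the lumped walk -/
theorem U_blow_fst_ge (A : Finset L) (b : K) (F : L → ℝ) (hF : ∀ l, 0 ≤ F l) (n : ℕ)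
    (x : L × K) :
    w1 A b ^ n * (U A ^ n) F x.1 ≤ (U (blow A b) ^ n) (fun y => F y.1) x := by
  induction n generalizing x with
  | zero => simp
  | succ n ih =>
    rw [U_pow_succ_apply, U_pow_succ_apply, U_apply (blow A b), sum_blow]
    have hc := blow_card_pos A b
    have h2 : (0 : ℝ) ≤ ∑ l, (U (blow A b) ^ n) (fun y => F y.1) (x + (l, b)) :=
      Finset.sum_nonneg fun l _ => U_pow_nonneg _ _ (fun y => hF _) _
    have h1 : (∑ a ∈ A, ∑ u ∈ (univ : Finset K).erase b,
        w1 A b ^ n * (U A ^ n) F (x.1 + a)) ≤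
        ∑ a ∈ A, ∑ u ∈ (univ : Finset K).erase b,
          (U (blow A b) ^ n) (fun y => F y.1) (x + (a, u)) := by
      refine Finset.sum_le_sum fun a _ => Finset.sum_le_sum fun u _ => ?_
      have := ih (x + (a, u))
      simpa using this
    have h3 : (∑ a ∈ A, ∑ u ∈ (univ : Finset K).erase b,
        w1 A b ^ n * (U A ^ n) F (x.1 + a)) =
        ((Fintype.card K : ℝ) - 1) * w1 A b ^ n * ∑ a ∈ A, (U A ^ n) F (x.1 + a) := by
      have hK : 1 ≤ Fintype.card K := Fintype.card_pos_iff.mpr ⟨b⟩
      simp only [Finset.sum_const, Finset.card_erase_of_mem (Finset.mem_univ b),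
        Finset.card_univ, nsmul_eq_mul]
      rw [Finset.mul_sum]
      refine Finset.sum_congr rfl fun a _ => ?_
      push_cast [Nat.cast_sub hK]
      ring
    rcases A.eq_empty_or_nonempty with hA | hA
    · subst hA
      simp only [w1, Finset.card_empty]
      simp
      rw [div_nonneg_iff]
      left
      exact ⟨by simpa using h2, hc.le⟩
    · have hA' : (0 : ℝ) < A.card := by exact_mod_cast hA.card_pos
      rw [U_apply, pow_succ, le_div_iff₀ hc]
      calc w1 A b ^ n * w1 A b * ((∑ s ∈ A, (U A ^ n) F (x.1 + s)) / (A.card : ℝ)) *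
            ((blow A b).card : ℝ)
          = ((Fintype.card K : ℝ) - 1) * w1 A b ^ n * ∑ a ∈ A, (U A ^ n) F (x.1 + a) := by
            rw [w1]; field_simp
        _ ≤ _ := by rw [← h3]; linarith

/-- averages over the `L`-fibres -/
theorem avgL_step (S : Finset (L × K)) (hS : S.Nonempty) (g : L × K → ℝ) (m : ℝ)
    (hm : ∀ k, m ≤ ∑ l, g (l, k)) (k : K) : m ≤ ∑ l, U S g (l, k) := by
  simp only [U_apply]
  rw [← Finset.sum_div, Finset.sum_comm]
  have hc : (0 : ℝ) < S.card := by exact_mod_cast hS.card_pos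
  rw [le_div_iff₀ hc]
  have : ∀ s ∈ S, m ≤ ∑ l, g ((l, k) + s) := by
    intro s _
    have h := Equiv.sum_comp (Equiv.addRight s.1) (fun l => g (l, k + s.2))
    simp only [Equiv.coe_addRight] at h
    have h2 : ∑ l, g ((l, k) + s) = ∑ l, g (l, k + s.2) := by
      rw [← h]
      rfl
    rw [h2]
    exact hm _
  calc m * S.card = ∑ s ∈ S, m := by simp [mul_comm]
    _ ≤ _ := Finset.sum_le_sum this

theorem avgL_step_pow (S : Finset (L × K)) (hS : S.Nonempty) (n : ℕ) (g : L × K → ℝ) (m : ℝ)
    (hm : ∀ k, m ≤ ∑ l, g (l, k)) (k : K) : m ≤ ∑ l, (U S ^ n) g (l, k) := by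
  induction n generalizing k with
  | zero => simpa using hm k
  | succ n ih =>
    rw [U_pow_succ_apply]
    exact avgL_step S hS _ m ih k

theorem U_blow_ge (A : Finset L) (b : K) (g : L × K → ℝ) (hg : ∀ x, 0 ≤ g x) (m : ℝ)
    (hm : ∀ k, m * Fintype.card L ≤ ∑ l, g (l, k)) (n : ℕ) (x : L × K) :
    (1 - w1 A b ^ n) * m ≤ (U (blow A b) ^ n) g x := by
  induction n generalizing x with
  | zero => simpa using hg x
  | succ n ih =>
    rw [U_pow_succ_apply, U_apply, sum_blow]
    have hc := blow_card_pos A b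
    rw [le_div_iff₀ hc]
    have hK : 1 ≤ Fintype.card K := Fintype.card_pos_iff.mpr ⟨b⟩
    have h1 : (A.card : ℝ) * ((Fintype.card K : ℝ) - 1) * ((1 - w1 A b ^ n) * m) ≤
        ∑ a ∈ A, ∑ u ∈ (univ : Finset K).erase b, (U (blow A b) ^ n) g (x + (a, u)) := by
      calc (A.card : ℝ) * ((Fintype.card K : ℝ) - 1) * ((1 - w1 A b ^ n) * m)
          = ∑ a ∈ A, ∑ u ∈ (univ : Finset K).erase b, ((1 - w1 A b ^ n) * m) := by
            simp only [Finset.sum_const, Finset.card_erase_of_mem (Finset.mem_univ b),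
              Finset.card_univ, nsmul_eq_mul]
            push_cast [Nat.cast_sub hK]
            ring
        _ ≤ _ := Finset.sum_le_sum fun a _ => Finset.sum_le_sum fun u _ => ih _
    have h2 : m * Fintype.card L ≤ ∑ l, (U (blow A b) ^ n) g (x + (l, b)) := by
      have h := Equiv.sum_comp (Equiv.addLeft x.1)
        (fun l => (U (blow A b) ^ n) g (l, x.2 + b))
      simp only [Equiv.coe_addLeft] at h
      have h2 : ∑ l, (U (blow A b) ^ n) g (x + (l, b)) =
          ∑ l, (U (blow A b) ^ n) g (l, x.2 + b) := by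
        rw [← h]; rfl
      rw [h2]
      exact avgL_step_pow _ (blow_nonempty A b) n g _ hm _
    have h3 : (A.card : ℝ) * ((Fintype.card K : ℝ) - 1) = w1 A b * (blow A b).card := by
      rw [w1]; field_simp
    have h4 : (Fintype.card L : ℝ) = w2 A b * (blow A b).card := by
      rw [w2]; field_simp
    have h5 : w2 A b = 1 - w1 A b := by linarith [w1_add_w2 A b]
    rw [h3] at h1
    rw [h4, h5] at h2
    calc (1 - w1 A b ^ (n + 1)) * m * (blow A b).card
        = w1 A b * (blow A b).card * ((1 - w1 A b ^ n) * m) +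
          m * ((1 - w1 A b) * (blow A b).card) := by ring
      _ ≤ _ := add_le_add h1 h2

/-- one step: fibre sums -/
theorem fibre_step (A : Finset L) (b : K) (f : L × K → ℝ) (hf : ∀ x, 0 ≤ f x) (k : K) :
    (A.card : ℝ) / (blow A b).card * ∑ u ∈ (univ : Finset K).erase b, ∑ l, f (l, k + u) ≤
      ∑ l, U (blow A b) f (l, k) := by
  have hc := blow_card_pos A b
  simp only [U_apply]
  rw [← Finset.sum_div, div_mul_eq_mul_div]
  gcongr
  simp only [sum_blow]
  rw [Finset.sum_add_distrib]
  have h0 : (0 : ℝ) ≤ ∑ l, ∑ l', f ((l, k) + (l', b)) :=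
    Finset.sum_nonneg fun _ _ => Finset.sum_nonneg fun _ _ => hf _
  have h1 : ∑ l, ∑ a ∈ A, ∑ u ∈ (univ : Finset K).erase b, f ((l, k) + (a, u)) =
      (A.card : ℝ) * ∑ u ∈ (univ : Finset K).erase b, ∑ l, f (l, k + u) := by
    rw [Finset.sum_comm]
    have : ∀ a ∈ A, ∑ l, ∑ u ∈ (univ : Finset K).erase b, f ((l, k) + (a, u)) =
        ∑ u ∈ (univ : Finset K).erase b, ∑ l, f (l, k + u) := by
      intro a _
      rw [Finset.sum_comm]
      refine Finset.sum_congr rfl fun u _ => ?_
      exact Equiv.sum_comp (Equiv.addRight a) (fun l => f (l, k + u))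
    rw [Finset.sum_congr rfl this, Finset.sum_const, nsmul_eq_mul]
  linarith

theorem fibre_two_steps (A : Finset L) (b : K) (f : L × K → ℝ) (hf : ∀ x, 0 ≤ f x) (k : K)
    (hK : 3 ≤ Fintype.card K) :
    (w1 A b ^ 2 / 2 * ((∑ x, f x) / Fintype.card (L × K))) * Fintype.card L ≤
      ∑ l, (U (blow A b) ^ 2) f (l, k) := by
  have hc := blow_card_pos A b
  have hKr : (3 : ℝ) ≤ Fintype.card K := by exact_mod_cast hK
  have hL : (0 : ℝ) < Fintype.card L := by exact_mod_cast Fintype.card_pos
  rw [U_pow_succ_apply, pow_one]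
  have h1 := fibre_step A b (U (blow A b) f) (U_nonneg _ hf) k
  refine le_trans ?_ h1
  have h2 : ∀ u ∈ (univ : Finset K).erase b,
      (A.card : ℝ) / (blow A b).card *
        ∑ v ∈ (univ : Finset K).erase b, ∑ l, f (l, k + u + v) ≤
      ∑ l, U (blow A b) f (l, k + u) := fun u _ => fibre_step A b f hf (k + u)
  have h3 := Finset.sum_le_sum h2
  rw [← Finset.mul_sum] at h3
  set F : K → ℝ := fun k => ∑ l, f (l, k) with hF
  have hF0 : ∀ k, 0 ≤ F k := fun k => Finset.sum_nonneg fun _ _ => hf _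
  have hFtot : ∑ k, F k = ∑ x, f x := by
    rw [Fintype.sum_prod_type, Finset.sum_comm]
  have h4 : ((Fintype.card K : ℝ) - 2) * ∑ k, F k ≤
      ∑ u ∈ (univ : Finset K).erase b, ∑ v ∈ (univ : Finset K).erase b, F (k + u + v) := by
    have e1 : ∀ c : K, ∑ v ∈ (univ : Finset K).erase b, F (c + v) = ∑ k, F k - F (c + b) := by
      intro c
      have := Finset.sum_erase_eq_sub (f := fun v => F (c + v)) (Finset.mem_univ b)
      rw [this]
      have := Equiv.sum_comp (Equiv.addLeft c) F
      simp only [Equiv.coe_addLeft] at this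
      rw [this]
    simp only [e1]
    rw [Finset.sum_sub_distrib]
    have e2 : ∑ u ∈ (univ : Finset K).erase b, F (k + u + b) = ∑ k, F k - F (k + b + b) := by
      have e3 : ∀ u ∈ (univ : Finset K).erase b, F (k + u + b) = F ((k + b) + u) := by
        intro u _
        congr 1
        abel
      rw [Finset.sum_congr rfl e3, e1]
    rw [e2]
    have hK1 : 1 ≤ Fintype.card K := by omega
    simp only [Finset.sum_const, Finset.card_erase_of_mem (Finset.mem_univ b),
        Finset.card_univ, nsmul_eq_mul]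
    push_cast [Nat.cast_sub hK1]
    have := hF0 (k + b + b)
    linarith
  have h5 : (0 : ℝ) ≤ (A.card : ℝ) / (blow A b).card := by positivity
  have h6 := mul_le_mul_of_nonneg_left h4 h5
  have h7 := mul_le_mul_of_nonneg_left (h6.trans h3) h5
  refine le_trans ?_ h7
  rw [hFtot, Fintype.card_prod]
  set X := ∑ x, f x with hX
  have hX0 : 0 ≤ X := Finset.sum_nonneg fun _ _ => hf _
  have hw : w1 A b = (A.card : ℝ) / (blow A b).card * ((Fintype.card K : ℝ) - 1) := by
    rw [w1]; ring
  rw [hw]
  set α := (A.card : ℝ) / (blow A b).card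
  set κ := (Fintype.card K : ℝ)
  push_cast
  have key : (κ - 1) ^ 2 / (2 * κ) ≤ κ - 2 := by
    rw [div_le_iff₀ (by linarith)]
    nlinarith
  calc (α * (κ - 1)) ^ 2 / 2 * (X / (↑(Fintype.card L) * κ)) * ↑(Fintype.card L)
      = α ^ 2 * X * ((κ - 1) ^ 2 / (2 * κ)) := by
        field_simp
    _ ≤ α ^ 2 * X * (κ - 2) := by
        apply mul_le_mul_of_nonneg_left key
        positivity
    _ = α * (α * ((κ - 2) * X)) := by ring

end blow

end

end Pool.Agent.Helper394
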