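import Pool.Agent.Helper394.Cts
import Pool.Agent.Helper394.Conv

open Finset NormedSpace
open scoped Matrix Nat

namespace Pool.Agent.Helper394

noncomputable section

section

variable {G : Type} [AddCommGroup G] [Fintype G] [DecidableEq G]

/-- completeness of characters, complex version -/
theorem exists_charC (f : G → ℂ) (hf : f ≠ 0) :
    ∃ χ : AddChar G ℂ, ∑ x, f x * χ x ≠ 0 := by
  by_contra hcon
  push Not at hcon
  apply hf
  ext y
  have h1 : ∑ χ : AddChar G ℂ, χ (-y) * ∑ x, f x * χ x = 0 := by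
    apply Finset.sum_eq_zero
    intro χ _
    rw [hcon, mul_zero]
  have h2 : ∑ χ : AddChar G ℂ, χ (-y) * ∑ x, f x * χ x =
      ∑ x, f x * ∑ χ : AddChar G ℂ, χ (x - y) := by
    simp only [Finset.mul_sum]
    rw [Finset.sum_comm]
    refine Finset.sum_congr rfl fun x _ => Finset.sum_congr rfl fun χ _ => ?_
    rw [sub_eq_add_neg, AddChar.map_add_eq_mul]
    ring
  rw [h2] at h1
  simp only [AddChar.sum_apply_eq_ite, sub_eq_zero, mul_ite, mul_zero] at h1
  rw [Finset.sum_ite_eq' univ y] at h1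
  simp only [Finset.mem_univ, if_true] at h1
  have hG : (Fintype.card G : ℂ) ≠ 0 := by exact_mod_cast Fintype.card_ne_zero
  rcases mul_eq_zero.mp h1 with h | h
  · simpa using h
  · exact absurd h hG

theorem Bad.eigenC {S : Finset G} {T : ℕ} (h : Bad S T) (f : G → ℂ) (hf : f ≠ 0) (lam : ℂ)
    (hlam : ∀ x, ∑ s ∈ S, f (x + s) = lam * S.card * f x) (h1 : lam ≠ 1) : ‖lam‖ ≤ 3 / 4 := by
  obtain ⟨χ, hχ⟩ := exists_charC f hf
  have hS := h.nonempty
  have hSc : (0 : ℝ) < S.card := by exact_mod_cast hS.card_pos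
  have hSc' : (S.card : ℂ) ≠ 0 := by exact_mod_cast hSc.ne'
  set F := ∑ x, f x * χ x with hF
  have key : (lam * S.card) * F = (∑ s ∈ S, χ s) * F := by
    calc (lam * S.card) * F = ∑ x, (lam * S.card * f x) * χ x := by
          rw [hF, Finset.mul_sum]
          refine Finset.sum_congr rfl fun x _ => by ring
      _ = ∑ x, ∑ s ∈ S, f (x + s) * χ x := by
          refine Finset.sum_congr rfl fun x _ => ?_
          rw [← hlam, Finset.sum_mul]
      _ = ∑ s ∈ S, ∑ x, f (x + s) * χ x := Finset.sum_comm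
      _ = ∑ s ∈ S, χ (-s) * F := by
          refine Finset.sum_congr rfl fun s _ => ?_
          rw [hF, Finset.mul_sum]
          rw [← Equiv.sum_comp (Equiv.subRight s) (fun x => f (x + s) * χ x)]
          refine Finset.sum_congr rfl fun x _ => ?_
          simp only [Equiv.subRight_apply, sub_add_cancel]
          rw [sub_eq_add_neg, AddChar.map_add_eq_mul]
          ring
      _ = (∑ s ∈ S, χ (-s)) * F := by rw [Finset.sum_mul]
      _ = (∑ s ∈ S, χ s) * F := by
          congr 1
          refine Finset.sum_bij' (fun s _ => -s) (fun s _ => -s) ?_ ?_ ?_ ?_ ?_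
          · exact fun s hs => h.neg s hs
          · exact fun s hs => h.neg s hs
          · intro s _; simp
          · intro s _; simp
          · intro s _; rfl
  have key2 := mul_right_cancel₀ hχ key
  have hχ1 : χ ≠ 1 := by
    intro hχ1
    rw [hχ1] at key2
    simp only [AddChar.one_apply, Finset.sum_const, nsmul_eq_mul, mul_one] at key2
    apply h1
    have h3 : lam * S.card = 1 * S.card := by rw [key2, one_mul]
    exact mul_right_cancel₀ hSc' h3
  have h4 := h.char χ hχ1
  rw [← key2, norm_mul] at h4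
  have h5 : ‖(S.card : ℂ)‖ = (S.card : ℝ) := by simp
  rw [h5] at h4
  exact le_of_mul_le_mul_right h4 hSc

/-- a nontrivial character gives an eigenfunction -/
theorem char_eigen {S : Finset G} (χ : AddChar G ℂ) (x : G) :
    ∑ s ∈ S, χ (x + s) = (∑ s ∈ S, χ s) * χ x := by
  rw [Finset.sum_mul]
  refine Finset.sum_congr rfl fun s _ => ?_
  rw [AddChar.map_add_eq_mul, mul_comm]

theorem char_sum_real {S : Finset G} {T : ℕ} (h : Bad S T) (χ : AddChar G ℂ) :
    (∑ s ∈ S, χ s).im = 0 := by
  have h1 : ∑ s ∈ S, χ s = ∑ s ∈ S, χ (-s) := by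
    refine Finset.sum_bij' (fun s _ => -s) (fun s _ => -s) ?_ ?_ ?_ ?_ ?_
    · exact fun s hs => h.neg s hs
    · exact fun s hs => h.neg s hs
    · intro s _; simp
    · intro s _; simp
    · intro s _; simp
  have h2 : ∑ s ∈ S, χ (-s) = starRingEnd ℂ (∑ s ∈ S, χ s) := by
    rw [map_sum]
    refine Finset.sum_congr rfl fun s _ => ?_
    rw [AddChar.map_neg_eq_conj]
  rw [h2] at h1
  exact Complex.conj_eq_iff_im.mp h1.symm

variable {P : Matrix G G ℝ} {S : Finset G} {T : ℕ}

/-- nonzero eigenvalues of `1 - P` are at least `1/4` -/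
theorem gap_real (h : Bad S T) (hP : ∀ f : G → ℝ, P.mulVec f = U S f) (r : ℝ)
    (hr : r ∈ spectrum ℝ (1 - P)) (h0 : r ≠ 0) : 1 / 4 ≤ r := by
  rw [← Matrix.spectrum_toLin', ← Module.End.hasEigenvalue_iff_mem_spectrum] at hr
  obtain ⟨f, hf⟩ := hr.exists_hasEigenvector
  have hf1 := hf.apply_eq_smul
  rw [Matrix.toLin'_apply, Matrix.sub_mulVec, Matrix.one_mulVec, hP] at hf1
  have h2 : ∀ x, U S f x = (1 - r) * f x := by
    intro x
    have := congrFun hf1 x
    rw [Pi.sub_apply, Pi.smul_apply, smul_eq_mul] at this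
    linarith
  have h3 := h.eigen f hf.2 (1 - r) h2 (by intro h4; apply h0; linarith)
  rw [abs_le] at h3
  linarith

theorem gap_real_exists (h : Bad S T) (hP : ∀ f : G → ℝ, P.mulVec f = U S f)
    (χ : AddChar G ℂ) (hχ : χ ≠ 1) : ∃ r ∈ spectrum ℝ (1 - P), r ≠ 0 := by
  have hSc : (0 : ℝ) < S.card := by exact_mod_cast h.nonempty.card_pos
  set c : ℝ := (∑ s ∈ S, χ s).re with hc
  have hcC : (∑ s ∈ S, χ s) = (c : ℂ) := by
    apply Complex.ext
    · simp [hc]
    · rw [char_sum_real h χ]; simp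
  let f : G → ℝ := fun x => (χ x).re
  have hf0 : f ≠ 0 := by
    intro hf
    have := congrFun hf 0
    simp [f] at this
  have hUf : U S f = fun x => (c / S.card) * f x := by
    ext x
    rw [U_apply]
    have h1 := char_eigen (S := S) χ x
    rw [hcC] at h1
    have h2 := congrArg Complex.re h1
    rw [Complex.re_sum, Complex.re_ofReal_mul] at h2
    simp only [f]
    rw [h2]
    ring
  have hbound : c / S.card ≤ 3 / 4 := by
    have h1 := h.char χ hχ
    rw [hcC, Complex.norm_real, Real.norm_eq_abs] at h1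
    rw [div_le_iff₀ hSc]
    exact (le_abs_self c).trans h1
  refine ⟨1 - c / S.card, ?_, by linarith⟩
  rw [← Matrix.spectrum_toLin', ← Module.End.hasEigenvalue_iff_mem_spectrum]
  apply Module.End.hasEigenvalue_of_hasEigenvector (x := f)
  refine ⟨?_, hf0⟩
  rw [Module.End.mem_eigenspace_iff, Matrix.toLin'_apply, Matrix.sub_mulVec, Matrix.one_mulVec,
    hP, hUf]
  ext x
  simp only [Pi.sub_apply, Pi.smul_apply, smul_eq_mul]
  ring

theorem sum_complex (hP : ∀ f : G → ℝ, P.mulVec f = U S f) (f : G → ℂ) (x : G) :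
    ∑ y, (P x y : ℂ) * f y = (∑ s ∈ S, f (x + s)) / S.card := by
  have h1 := congrFun (hP fun y => (f y).re) x
  have h2 := congrFun (hP fun y => (f y).im) x
  rw [U_apply] at h1 h2
  simp only [Matrix.mulVec, dotProduct] at h1 h2
  apply Complex.ext
  · rw [Complex.re_sum, Complex.div_natCast_re, Complex.re_sum, ← h1]
    refine Finset.sum_congr rfl fun y _ => ?_
    rw [Complex.re_ofReal_mul]
  · rw [Complex.im_sum, Complex.div_natCast_im, Complex.im_sum, ← h2]
    refine Finset.sum_congr rfl fun y _ => ?_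
    rw [Complex.im_ofReal_mul]

/-- nonzero complex eigenvalues of `1 - P` have real part at least `1/4` -/
theorem gap_complex (h : Bad S T) (hP : ∀ f : G → ℝ, P.mulVec f = U S f) (z : ℂ)
    (hz : z ∈ spectrum ℂ ((1 - P).map (algebraMap ℝ ℂ))) (h0 : z ≠ 0) : 1 / 4 ≤ z.re := by
  rw [← Matrix.spectrum_toLin', ← Module.End.hasEigenvalue_iff_mem_spectrum] at hz
  obtain ⟨f, hf⟩ := hz.exists_hasEigenvector
  have hf1 := hf.apply_eq_smul
  rw [Matrix.toLin'_apply] at hf1
  have hSc : (0 : ℝ) < S.card := by exact_mod_cast h.nonempty.card_pos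
  have hSc' : (S.card : ℂ) ≠ 0 := by exact_mod_cast hSc.ne'
  have h2 : ∀ x, ∑ s ∈ S, f (x + s) = (1 - z) * S.card * f x := by
    intro x
    have h3 := congrFun hf1 x
    simp only [Matrix.mulVec, dotProduct, Matrix.map_apply, Matrix.sub_apply, map_sub,
      sub_mul, Finset.sum_sub_distrib, Pi.smul_apply, smul_eq_mul] at h3
    have h4 : ∑ y, (algebraMap ℝ ℂ) (P x y) * f y = (∑ s ∈ S, f (x + s)) / S.card :=
      sum_complex hP f x
    rw [h4] at h3
    have h5 : ∑ y, (algebraMap ℝ ℂ) ((1 : Matrix G G ℝ) x y) * f y = f x := by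
      simp [Matrix.one_apply]
    rw [h5] at h3
    have h6 : (∑ s ∈ S, f (x + s)) / S.card = (1 - z) * f x := by
      linear_combination -h3
    rw [div_eq_iff hSc'] at h6
    rw [h6]; ring
  have h3 := h.eigenC f hf.2 (1 - z) h2 (by
    intro h4
    apply h0
    linear_combination -h4)
  have h4 := (Complex.abs_re_le_norm (1 - z)).trans h3
  rw [abs_le] at h4
  simp only [Complex.sub_re, Complex.one_re] at h4
  linarith

theorem gap_complex_exists (h : Bad S T) (hP : ∀ f : G → ℝ, P.mulVec f = U S f)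
    (χ : AddChar G ℂ) (hχ : χ ≠ 1) :
    ∃ z ∈ spectrum ℂ ((1 - P).map (algebraMap ℝ ℂ)), z ≠ 0 := by
  have hSc : (0 : ℝ) < S.card := by exact_mod_cast h.nonempty.card_pos
  have hSc' : (S.card : ℂ) ≠ 0 := by exact_mod_cast hSc.ne'
  have hnorm := h.char χ hχ
  refine ⟨1 - (∑ s ∈ S, χ s) / S.card, ?_, ?_⟩
  · rw [← Matrix.spectrum_toLin', ← Module.End.hasEigenvalue_iff_mem_spectrum]
    apply Module.End.hasEigenvalue_of_hasEigenvector (x := fun x => χ x)
    refine ⟨?_, ?_⟩
    · rw [Module.End.mem_eigenspace_iff, Matrix.toLin'_apply]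
      ext x
      simp only [Matrix.mulVec, dotProduct, Matrix.map_apply, Matrix.sub_apply, map_sub,
        sub_mul, Finset.sum_sub_distrib, Pi.smul_apply, smul_eq_mul]
      have h4 : ∑ y, (algebraMap ℝ ℂ) (P x y) * χ y = (∑ s ∈ S, χ (x + s)) / S.card :=
        sum_complex hP (fun x => χ x) x
      rw [h4, char_eigen]
      have h5 : ∑ y, (algebraMap ℝ ℂ) ((1 : Matrix G G ℝ) x y) * χ y = χ x := by
        simp [Matrix.one_apply]
      rw [h5]
      ring
    · intro h0
      have := congrFun h0 0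
      simp at this
  · intro h0
    have h1 : (∑ s ∈ S, χ s) = S.card := by
      have : (∑ s ∈ S, χ s) / S.card = 1 := by linear_combination -h0
      rwa [div_eq_one_iff_eq hSc'] at this
    rw [h1] at hnorm
    simp at hnorm
    linarith

end

section translate

variable {G : Type} [AddCommGroup G] [Fintype G] [DecidableEq G]
variable {P : Matrix G G ℝ} {S : Finset G}

theorem heat_translate (hP : ∀ f : G → ℝ, P.mulVec f = U S f) (t : ℝ) (x y z : G) :
    (NormedSpace.exp (t • (P - 1))) (x + z) (y + z) = (NormedSpace.exp (t • (P - 1))) x y := by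
  have h1 := hasSum_heat P t (Pi.single (y + z) 1) (x + z)
  have h2 := hasSum_heat P t (Pi.single y 1) x
  have h3 : ∀ k : ℕ, ((P ^ k).mulVec (Pi.single (y + z) 1)) (x + z) =
      ((P ^ k).mulVec (Pi.single y 1)) x := by
    intro k
    have h4 : (fun w => (Pi.single (y + z) 1 : G → ℝ) (w + z)) = Pi.single y 1 := by
      ext w
      simp [Pi.single_apply]
    rw [mat_pow hP, mat_pow hP, U_pow_translate, h4]
  simp only [h3] at h1
  have h4 := h1.unique h2
  rw [Matrix.mulVec_single_one, Matrix.mulVec_single_one] at h4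
  exact h4

theorem heat_tv_translate (hP : ∀ f : G → ℝ, P.mulVec f = U S f) (t c : ℝ) (x : G) :
    ∑ y, |(NormedSpace.exp (t • (P - 1))) x y - c| =
      ∑ y, |(NormedSpace.exp (t • (P - 1))) 0 y - c| := by
  rw [← Equiv.sum_comp (Equiv.addRight x)]
  refine Finset.sum_congr rfl fun y _ => ?_
  have := heat_translate hP t 0 y x
  rw [zero_add] at this
  rw [Equiv.coe_addRight, this]

end translate

end

end Pool.Agent.Helper394
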