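import Pool.Agent.Helper394.Lazy

open Finset Filter Topology

namespace Pool.Agent.Helper394

theorem sInf_gt (d : ℕ → ℝ) (T : ℕ) (ε : ℝ) (hε : ε ≤ 1 / 2)
    (h1 : ∀ t ≤ T, 1 / 2 < d t) (h3 : ∃ t, d t ≤ ε) : T + 1 ≤ sInf {t : ℕ | d t ≤ ε} := by
  have hne : {t : ℕ | d t ≤ ε}.Nonempty := h3
  have hmem := Nat.sInf_mem hne
  by_contra hcon
  have h4 : sInf {t : ℕ | d t ≤ ε} ≤ T := by omega
  have h5 := h1 _ h4
  have h6 : d (sInf {t : ℕ | d t ≤ ε}) ≤ ε := hmem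
  linarith

theorem no_cutoff_of (d : ℕ → ℕ → ℝ) (h1 : ∀ n, ∀ t ≤ n + 64, 1 / 2 < d n t)
    (h2 : ∀ n, d n (2 * ((n + 64) / 8) + 1) ≤ 1 - 1 / 2000)
    (h3 : ∀ n ε, 0 < ε → ∃ t, d n t ≤ ε) :
    ¬ Tendsto (fun n => ((sInf {t : ℕ | d n t ≤ 1 / 2000} : ℕ) : ℝ) /
      ((sInf {t : ℕ | d n t ≤ 1 - 1 / 2000} : ℕ) : ℝ)) atTop (𝓝 1) := by
  intro hcon
  have h4 : ∀ n, 1 ≤ |((sInf {t : ℕ | d n t ≤ 1 / 2000} : ℕ) : ℝ) /
      ((sInf {t : ℕ | d n t ≤ 1 - 1 / 2000} : ℕ) : ℝ) - 1| := by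
    intro n
    have ha := sInf_gt (d n) (n + 64) (1 / 2000) (by norm_num) (h1 n) (h3 n _ (by norm_num))
    have hb : sInf {t : ℕ | d n t ≤ 1 - 1 / 2000} ≤ 2 * ((n + 64) / 8) + 1 :=
      Nat.sInf_le (h2 n)
    set a := sInf {t : ℕ | d n t ≤ 1 / 2000}
    set b := sInf {t : ℕ | d n t ≤ 1 - 1 / 2000}
    rcases Nat.eq_zero_or_pos b with hb0 | hb0
    · rw [hb0]; simp
    · have hab : 2 * b ≤ a := by omega
      have hb' : (0 : ℝ) < b := by exact_mod_cast hb0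
      have h5 : (2 : ℝ) ≤ (a : ℝ) / b := by
        rw [le_div_iff₀ hb']
        exact_mod_cast hab
      rw [abs_of_nonneg (by linarith)]
      linarith
  have h5 := (hcon.sub_const 1).abs
  rw [sub_self, abs_zero] at h5
  have h6 := ge_of_tendsto' h5 h4
  linarith

theorem tendsto_div_of (a : ℕ → ℕ) (r : ℕ → ℝ) (h1 : ∀ n, n + 64 + 1 ≤ a n)
    (h4 : ∀ n, 0 < r n ∧ r n ≤ 8) : Tendsto (fun n => (a n : ℝ) / r n) atTop atTop := by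
  have h5 : Tendsto (fun n : ℕ => (n : ℝ) / 8) atTop atTop :=
    tendsto_natCast_atTop_atTop.atTop_div_const (by norm_num)
  refine tendsto_atTop_mono (fun n => ?_) h5
  have h6 : (n : ℝ) ≤ a n := by
    have := h1 n
    have h7 : n ≤ a n := by omega
    exact_mod_cast h7
  obtain ⟨h7, h8⟩ := h4 n
  rw [div_le_div_iff₀ (by norm_num) h7]
  have h9 : (0 : ℝ) ≤ n := by positivity
  nlinarith

theorem lam2_bound {Ω : Type*} [Fintype Ω] [DecidableEq Ω] (P : Matrix Ω Ω ℝ)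
    (h : ∀ lam ∈ spectrum ℝ P, lam ≠ 1 → 1 / 8 ≤ lam ∧ lam ≤ 7 / 8) :
    0 ≤ sSup (spectrum ℝ P \ {1}) ∧ sSup (spectrum ℝ P \ {1}) ≤ 7 / 8 := by
  constructor
  · apply Real.sSup_nonneg
    rintro x ⟨hx, hx1⟩
    have := (h x hx hx1).1
    linarith
  · apply Real.sSup_le _ (by norm_num)
    rintro x ⟨hx, hx1⟩
    exact (h x hx hx1).2

theorem ciSup_ge_val {Ω : Type*} [Fintype Ω] (f : Ω → ℝ) (x : Ω) : f x ≤ ⨆ y, f y :=
  le_ciSup (Set.finite_range f).bddAbove x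

end Pool.Agent.Helper394
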